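import Mathlib
import Pool.Agent.H560R3.GB.Tup

set_option autoImplicit false
set_option maxHeartbeats 4000000

/-! Prime tuples for almost all members of families of nearly minimal additive energy, with the full
singular series. -/

namespace Pool.Agent.H560R3.GB

open Finset Pool.Agent.H373R2.T7

/-- no value is taken often in a family of small energy -/
lemma mult_le (h x : ℕ) (s : ℕ → ℕ) (v : ℤ) :
    ((((Icc 1 x).filter (fun m => (s m : ℤ) = v)).card : ℝ)) ^ (2 * h) ≤
      Pool.Agent.H373R2.T7.energy h x (fun m => (s m : ℤ)) := by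
  classical
  set T : Finset ℕ := (Icc 1 x).filter (fun m => (s m : ℤ) = v) with hT
  set V : Finset (Fin h → ℕ) := Fintype.piFinset (fun _ => T) with hV
  have hcard : V.card = T.card ^ h := by
    rw [hV, Fintype.card_piFinset, prod_const, card_univ, Fintype.card_fin]
  have h1 : (V ×ˢ V).card ≤ Pool.Agent.H373R2.T7.energy h x (fun m => (s m : ℤ)) := by
    unfold Pool.Agent.H373R2.T7.energy
    apply card_le_card
    rintro ⟨a, b⟩ hq
    rw [mem_product] at hq
    simp only [hV, Fintype.mem_piFinset] at hq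
    obtain ⟨ha, hb⟩ := hq
    rw [mem_filter, mem_product]
    refine ⟨⟨?_, ?_⟩, ?_⟩
    · simp only [Fintype.mem_piFinset]
      exact fun i => (mem_filter.1 (ha i)).1
    · simp only [Fintype.mem_piFinset]
      exact fun i => (mem_filter.1 (hb i)).1
    · simp only
      apply sum_congr rfl
      intro i _
      rw [(mem_filter.1 (ha i)).2, (mem_filter.1 (hb i)).2]
  have h2 : (V ×ˢ V).card = T.card ^ (2 * h) := by
    rw [card_product, hcard, ← pow_add]
    congr 1
    ring
  rw [h2] at h1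
  exact_mod_cast h1

open Classical in
/-- few degenerate tuples -/
lemma fdegenerate {k : ℕ} (x : Fin k → ℕ) (s : Fin k → ℕ → ℕ) (hx : ∀ i, 1 ≤ x i) (μ : ℝ) (hμ : 0 ≤ μ)
    (hm : ∀ i, ∀ v : ℤ, (((Icc 1 (x i)).filter (fun m => (s i m : ℤ) = v)).card : ℝ) ≤ μ * x i) :
    (((Fintype.piFinset (fun i => Icc 1 (x i))).filter (fun m : Fin k → ℕ => (∃ i, (s i (m i) : ℤ) = 0) ∨
      ∃ i j, i ≠ j ∧ (s i (m i) : ℤ) = (s j (m j) : ℤ))).card : ℝ) ≤ (k + k * k) * (μ * ∏ i, (x i : ℝ)) := by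
  set Box := Fintype.piFinset (fun i => Icc 1 (x i)) with hBox
  have hprod : 0 < ∏ i, (x i : ℝ) := prod_pos fun i _ => by exact_mod_cast hx i
  -- one equation in the coordinate `i`
  have hone : ∀ i : Fin k, ∀ g : (Fin k → ℕ) → ℤ, (∀ m v, g (Function.update m i v) = g m) →
      ((Box.filter (fun m => (s i (m i) : ℤ) = g m)).card : ℝ) ≤ μ * ∏ i, (x i : ℝ) := by
    intro i g hg
    have h1 := avg_coord (fun i => Icc 1 (x i)) i (fun m => if (s i (m i) : ℤ) = g m then (1 : ℝ) else 0)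
    have h2 : ((Icc 1 (x i)).card : ℝ) = x i := by simp
    rw [h2] at h1
    have h3 : ∑ m ∈ Box, (if (s i (m i) : ℤ) = g m then (1 : ℝ) else 0) = ((Box.filter (fun m => (s i (m i) : ℤ) = g m)).card : ℝ) := by
      rw [← sum_filter, sum_const, nsmul_eq_mul, mul_one]
    rw [← hBox, h3] at h1
    have h4 : ∀ m ∈ Box, ∑ v ∈ Icc 1 (x i), (if (s i ((Function.update m i v) i) : ℤ) = g (Function.update m i v) then (1 : ℝ) else 0) ≤ μ * x i := by
      intro m _
      have h5 : ∑ v ∈ Icc 1 (x i), (if (s i ((Function.update m i v) i) : ℤ) = g (Function.update m i v) then (1 : ℝ) else 0) =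
          (((Icc 1 (x i)).filter (fun v : ℕ => (s i v : ℤ) = g m)).card : ℝ) := by
        rw [card_eq_sum_ones]
        push_cast
        rw [sum_filter]
        apply sum_congr rfl
        intro v _
        rw [Function.update_self, hg]
      rw [h5]
      exact hm i (g m)
    have h5 := sum_le_sum h4
    rw [h1, sum_const, nsmul_eq_mul] at h5
    have h6 : (Box.card : ℝ) = ∏ i, (x i : ℝ) := by
      rw [hBox, Fintype.card_piFinset]
      push_cast
      apply prod_congr rfl
      intro j _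
      simp
    rw [h6] at h5
    have hxi : (0 : ℝ) < x i := by exact_mod_cast hx i
    have h7 : (x i : ℝ) * ((Box.filter (fun m => (s i (m i) : ℤ) = g m)).card : ℝ) ≤ x i * (μ * ∏ i, (x i : ℝ)) := by
      refine h5.trans (le_of_eq ?_)
      ring
    exact le_of_mul_le_mul_left h7 hxi
  have hsub : Box.filter (fun m : Fin k → ℕ => (∃ i, (s i (m i) : ℤ) = 0) ∨
      ∃ i j, i ≠ j ∧ (s i (m i) : ℤ) = (s j (m j) : ℤ)) ⊆
      (univ.biUnion fun i : Fin k => Box.filter (fun m => (s i (m i) : ℤ) = (fun _ => (0 : ℤ)) m)) ∪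
      ((univ.filter (fun q : Fin k × Fin k => q.1 ≠ q.2)).biUnion fun q => Box.filter (fun m => (s q.1 (m q.1) : ℤ) = (s q.2 (m q.2) : ℤ))) := by
    intro m hm
    rw [mem_filter] at hm
    rw [mem_union, mem_biUnion, mem_biUnion]
    rcases hm.2 with ⟨i, hi⟩ | ⟨i, j, hij, h⟩
    · left; exact ⟨i, mem_univ _, mem_filter.2 ⟨hm.1, hi⟩⟩
    · right; exact ⟨(i, j), by simpa using hij, mem_filter.2 ⟨hm.1, h⟩⟩
  set P : ℝ := μ * ∏ i, (x i : ℝ) with hP
  have hP0 : 0 ≤ P := by positivity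
  have c1 : (((univ.biUnion fun i : Fin k => Box.filter (fun m => (s i (m i) : ℤ) = (fun _ => (0 : ℤ)) m))).card : ℝ) ≤ k * P := by
    have h1 : (((univ.biUnion fun i : Fin k => Box.filter (fun m => (s i (m i) : ℤ) = (fun _ => (0 : ℤ)) m))).card : ℝ) ≤
        ∑ i : Fin k, ((Box.filter (fun m => (s i (m i) : ℤ) = (fun _ => (0 : ℤ)) m)).card : ℝ) := by exact_mod_cast card_biUnion_le
    refine h1.trans ((sum_le_sum fun i _ => hone i (fun _ => 0) (fun _ _ => rfl)).trans ?_)
    rw [sum_const, card_univ, Fintype.card_fin, nsmul_eq_mul]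
  have c2 : (((univ.filter (fun q : Fin k × Fin k => q.1 ≠ q.2)).biUnion fun q => Box.filter (fun m => (s q.1 (m q.1) : ℤ) = (s q.2 (m q.2) : ℤ))).card : ℝ) ≤
      (k * k) * P := by
    have h1 : (((univ.filter (fun q : Fin k × Fin k => q.1 ≠ q.2)).biUnion fun q => Box.filter (fun m => (s q.1 (m q.1) : ℤ) = (s q.2 (m q.2) : ℤ))).card : ℝ) ≤
        ∑ q ∈ univ.filter (fun q : Fin k × Fin k => q.1 ≠ q.2), ((Box.filter (fun m => (s q.1 (m q.1) : ℤ) = (s q.2 (m q.2) : ℤ))).card : ℝ) := by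
      exact_mod_cast card_biUnion_le
    refine h1.trans ((sum_le_sum (g := fun _ => P) fun q hq => ?_).trans ?_)
    · rw [mem_filter] at hq
      exact hone q.1 (fun m => (s q.2 (m q.2) : ℤ)) (fun m v => by rw [Function.update_of_ne (Ne.symm hq.2)])
    · rw [sum_const, nsmul_eq_mul]
      apply mul_le_mul_of_nonneg_right _ hP0
      have h2 : (univ.filter (fun q : Fin k × Fin k => q.1 ≠ q.2)).card ≤ k * k := by
        refine (card_filter_le _ _).trans ?_
        rw [card_univ, Fintype.card_prod, Fintype.card_fin]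
      exact_mod_cast h2
  have h3 : ((Box.filter (fun m : Fin k → ℕ => (∃ i, (s i (m i) : ℤ) = 0) ∨
      ∃ i j, i ≠ j ∧ (s i (m i) : ℤ) = (s j (m j) : ℤ))).card : ℝ) ≤ k * P + (k * k) * P := by
    refine le_trans ?_ (add_le_add c1 c2)
    exact_mod_cast (card_le_card hsub).trans (card_union_le _ _)
  refine h3.trans (le_of_eq ?_)
  rw [hP]; ring

open Classical in
theorem ftuples_full (k h B C U : ℕ) (hk : 1 ≤ k) (hh : 1 ≤ h) :
    ∃ N0 : ℕ, ∀ N : ℕ, N0 ≤ N → ∀ (x : Fin k → ℕ) (s : Fin k → ℕ → ℕ),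
      (∀ i, 1 ≤ x i) → (∀ i, ∀ m ∈ Icc 1 (x i), s i m ≤ B * N) →
      (∀ i, (Pool.Agent.H373R2.T7.energy h (x i) (fun m => (s i m : ℤ)) : ℝ) * N ≤ Real.log N ^ C * (x i : ℝ) ^ (2 * h)) →
      (((Fintype.piFinset (fun i => Icc 1 (x i))).filter (fun m : Fin k → ℕ =>
        ¬ ∃ S : ℝ, Filter.Tendsto (fun z => singZ (fun i => (s i (m i) : ℤ)) z) Filter.atTop (nhds S) ∧
        |tupleCount (fun i => (s i (m i) : ℤ)) N - S * N| ≤ (N : ℝ) / Real.log N ^ U)).card : ℝ) ≤
        (∏ i, (x i : ℝ)) / Real.log N ^ U := by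
  obtain ⟨B0, hB0⟩ := ftuples k h B C (U + 1) hk
  set E1 := B0 + U + k + 6 with hE1
  obtain ⟨n1, h1⟩ := hB0 (E1 + 1)
  obtain ⟨n2, h2⟩ := Vz_inv_small (E1 + 1)
  set c1 : ℕ := 1 + B with hc1
  set c2 : ℝ := (k + 1 : ℝ) ^ 2 + 4 * (k + 1) * ((k + k * k) * 8) with hc2
  obtain ⟨n4, h4⟩ := ev_log' (C + 2 * h * (U + 3)) 1
  obtain ⟨n5, h5⟩ := ev_L' (Real.log (2 * c1) + 4 * (k + k * k) + c2 + 3 * (k + 1) + 16)
  refine ⟨max (max n1 n2) (max n4 (max n5 3)), fun N hN x s hx1 hs hE => ?_⟩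
  have b1 := le_trans (le_trans (le_max_left _ _) (le_max_left _ _)) hN
  have b2 := le_trans (le_trans (le_max_right _ _) (le_max_left _ _)) hN
  have b4 := le_trans (le_trans (le_max_left _ _) (le_max_right _ _)) hN
  have b5 := le_trans (le_trans (le_trans (le_max_left _ _) (le_max_right _ _)) (le_max_right _ _)) hN
  have hN3 : 3 ≤ N := le_trans (le_trans (le_trans (le_max_right _ _) (le_max_right _ _)) (le_max_right _ _)) hN
  have hNr : (3 : ℝ) ≤ N := by exact_mod_cast hN3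
  have hN0' : (0 : ℝ) < N := by linarith
  have hL := h5 N b5
  have a4 := h4 N b4
  set L := Real.log N with hLd
  rw [one_mul] at a4
  have hc1r : (1 : ℝ) ≤ c1 := by rw [hc1]; push_cast; linarith [Nat.cast_nonneg (α := ℝ) B]
  have hk0 : (0 : ℝ) ≤ k := Nat.cast_nonneg _
  have hlc1 : 0 ≤ Real.log (2 * c1) := Real.log_nonneg (by linarith)
  have hc20 : 0 < c2 := by positivity
  have hkD : 0 ≤ 4 * ((k : ℝ) + k * k) := by positivity
  have hL16 : 16 ≤ L := by nlinarith
  have hL1 : 1 ≤ L := by linarith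
  have hL0 : 0 < L := by linarith
  have hLa : Real.log (2 * c1) ≤ L := by linarith
  have hLb : 4 * ((k : ℝ) + k * k) ≤ L := by linarith
  have hLc : c2 ≤ L := by linarith
  have hLd' : 3 * ((k : ℝ) + 1) ≤ L := by linarith
  -- the truncation
  set z : ℕ := ⌈L ^ E1⌉₊ with hz
  have hz1 : L ^ E1 ≤ z := Nat.le_ceil _
  have hz2 : (z : ℝ) ≤ L ^ (E1 + 1) := by
    have h6 := (Nat.ceil_lt_add_one (show 0 ≤ L ^ E1 by positivity)).le
    have h7 : 1 ≤ L ^ E1 := one_le_pow₀ hL1
    rw [pow_succ]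
    nlinarith
  have hzB : L ^ B0 ≤ z := (pow_le_pow_right₀ hL1 (by omega)).trans hz1
  have hz0 : (0 : ℝ) < z := lt_of_lt_of_le (by positivity) hz1
  have hzn : 1 ≤ z := by exact_mod_cast hz0
  have hV := h2 N b2 z hzn hz2
  -- multiplicities
  have hmult : ∀ i, ∀ v : ℤ, (((Icc 1 (x i)).filter (fun m => (s i m : ℤ) = v)).card : ℝ) ≤ 1 / L ^ (U + 3) * x i := by
    intro i v
    have h6 := mult_le h (x i) (s i) v
    have h7 : (Pool.Agent.H373R2.T7.energy h (x i) (fun m => (s i m : ℤ)) : ℝ) ≤ (1 / L ^ (U + 3) * x i) ^ (2 * h) := by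
      have h8 := hE i
      rw [← le_div_iff₀ hN0'] at h8
      refine h8.trans ?_
      rw [div_le_iff₀ hN0', mul_pow, div_pow, one_pow, ← pow_mul]
      have h9 : L ^ (C + 2 * h * (U + 3)) ≤ N := by
        refine a4.trans ?_
        rw [Real.sqrt_le_left (by positivity)]
        nlinarith
      have h10 : L ^ (C + 2 * h * (U + 3)) = L ^ C * L ^ ((U + 3) * (2 * h)) := by
        rw [← pow_add]; congr 1; ring
      rw [h10] at h9
      have hp : 0 < L ^ ((U + 3) * (2 * h)) := by positivity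
      have hx0 : 0 ≤ (x i : ℝ) ^ (2 * h) := by positivity
      calc L ^ C * (x i : ℝ) ^ (2 * h) = 1 / L ^ ((U + 3) * (2 * h)) * (x i : ℝ) ^ (2 * h) * (L ^ C * L ^ ((U + 3) * (2 * h))) := by
            field_simp
        _ ≤ 1 / L ^ ((U + 3) * (2 * h)) * (x i : ℝ) ^ (2 * h) * N :=
            mul_le_mul_of_nonneg_left h9 (by positivity)
    exact le_of_pow_le_pow_left₀ (by omega) (by positivity) (h6.trans h7)
  have hA := h1 N b1 x s hx1 hs hE z hzB hz2
  have hDeg := fdegenerate x s hx1 (1 / L ^ (U + 3)) (by positivity) hmult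
  have hprod : 0 < ∏ i, (x i : ℝ) := prod_pos fun i _ => by exact_mod_cast hx1 i
  set Box := Fintype.piFinset (fun i => Icc 1 (x i)) with hBox
  set S1 := Box.filter (fun m : Fin k → ℕ => (N : ℝ) / L ^ (U + 1) <
        |tupleCount (fun i => (s i (m i) : ℤ)) N - singZ (fun i => (s i (m i) : ℤ)) z * N|) with hS1
  set S2 := Box.filter (fun m : Fin k → ℕ => (∃ i, (s i (m i) : ℤ) = 0) ∨
      ∃ i j, i ≠ j ∧ (s i (m i) : ℤ) = (s j (m j) : ℤ)) with hS2
  have hsub : Box.filter (fun m : Fin k → ℕ =>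
        ¬ ∃ S : ℝ, Filter.Tendsto (fun z => singZ (fun i => (s i (m i) : ℤ)) z) Filter.atTop (nhds S) ∧
        |tupleCount (fun i => (s i (m i) : ℤ)) N - S * N| ≤ (N : ℝ) / L ^ U) ⊆ S1 ∪ S2 := by
    intro m hm
    rw [mem_filter] at hm
    rw [mem_union]
    by_contra hcon
    push Not at hcon
    obtain ⟨hn1, hn2⟩ := hcon
    have hn1' : |tupleCount (fun i => (s i (m i) : ℤ)) N - singZ (fun i => (s i (m i) : ℤ)) z * N| ≤ (N : ℝ) / L ^ (U + 1) := by
      by_contra h
      exact hn1 (mem_filter.2 ⟨hm.1, not_le.1 h⟩)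
    have hn2' : ¬ ((∃ i, (s i (m i) : ℤ) = 0) ∨ ∃ i j, i ≠ j ∧ (s i (m i) : ℤ) = (s j (m j) : ℤ)) :=
      fun h => hn2 (mem_filter.2 ⟨hm.1, h⟩)
    rw [not_or] at hn2'
    obtain ⟨hq1, hq2⟩ := hn2'
    set a : Fin k → ℤ := fun i => (s i (m i) : ℤ) with ha
    have ha1 : ∀ i, a i ≠ 0 := fun i hi => hq1 ⟨i, hi⟩
    have ha2 : ∀ i j, i ≠ j → a i ≠ a j := fun i j hij he => hq2 ⟨i, j, hij, he⟩
    obtain ⟨S, hS, hSb⟩ := sing_limit a ha1 ha2
    apply hm.2
    refine ⟨S, hS, ?_⟩
    have hmB := Fintype.mem_piFinset.1 hm.1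
    -- size of the shifts
    have hsize : ∀ i, (a i).natAbs ≤ c1 * N := by
      intro i
      have h6 := hs i (m i) (hmB i)
      have h7 : (a i).natAbs = s i (m i) := by rw [ha]; exact Int.natAbs_natCast _
      rw [h7, hc1, add_mul]
      omega
    set Y := 2 * c1 * N with hY
    have hbad := card_badP a Y (fun i => (hsize i).trans (by rw [hY]; nlinarith [Nat.zero_le (c1 * N)])) (fun i j => by
      have h6 := Int.natAbs_sub_le (a i) (a j)
      have h7 := hsize i
      have h8 := hsize j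
      rw [hY]
      calc (a i - a j).natAbs ≤ c1 * N + c1 * N := h6.trans (add_le_add h7 h8)
        _ = _ := by ring)
    have hY1 : 1 ≤ Y := by rw [hY, hc1]; nlinarith
    have hlogY : (Nat.log 2 Y : ℝ) ≤ 4 * L := by
      refine (natlog_le Y hY1).trans ?_
      have h6 : (Y : ℝ) = (2 * c1) * N := by rw [hY]; push_cast; ring
      rw [h6, Real.log_mul (by positivity) hN0'.ne']
      linarith
    have hKc : Kc a ≤ c2 * L := by
      unfold Kc
      have h6 : ((badP a).card : ℝ) ≤ (k + k * k) * (4 * L) := by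
        have h7 : ((badP a).card : ℝ) ≤ (k + k * k) * (Nat.log 2 Y : ℝ) := by exact_mod_cast hbad
        refine h7.trans ?_
        apply mul_le_mul_of_nonneg_left hlogY (by positivity)
      push_cast
      calc ((k : ℝ) + 1) ^ 2 + 4 * (k + 1) * ((badP a).card : ℝ) ≤ ((k : ℝ) + 1) ^ 2 * L + 4 * (k + 1) * ((k + k * k) * (4 * L)) := by
            apply add_le_add
            · exact le_mul_of_one_le_right (by positivity) hL1
            · gcongr
        _ ≤ c2 * L := by
            rw [hc2]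
            have : 0 ≤ 4 * ((k : ℝ) + 1) * ((k + k * k) * (4 * L)) := by positivity
            nlinarith
    have hKL : Kc a ≤ L ^ 2 := by nlinarith
    have hL2z : L ^ 2 ≤ z := (pow_le_pow_right₀ hL1 (by omega)).trans hz1
    have h3k : 3 * (k + 1) ≤ z := by
      have h6 : (3 * ((k : ℝ) + 1)) ≤ z := by
        have : L ≤ L ^ 2 := by nlinarith
        linarith
      exact_mod_cast h6
    have hdiff := hSb z h3k (hKL.trans hL2z)
    have hsz := singZ_le a z L hV
    have hs0 := singZ_nonneg a z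
    have hdiff2 : |S - singZ a z| ≤ 1 / L ^ (U + 2) := by
      refine hdiff.trans ?_
      calc singZ a z * (Kc a / z) ≤ L ^ k * (L ^ 2 / L ^ E1) := by
            apply mul_le_mul hsz _ (by
              apply div_nonneg _ hz0.le
              unfold Kc; positivity) (by positivity)
            apply div_le_div₀ (by positivity) hKL (by positivity) hz1
        _ = L ^ (k + 2) / L ^ E1 := by rw [pow_add]; ring
        _ ≤ 1 / L ^ (U + 2) := by
            rw [div_le_div_iff₀ (by positivity) (by positivity), one_mul, ← pow_add]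
            exact pow_le_pow_right₀ hL1 (by omega)
    have e : tupleCount a N - S * N = (tupleCount a N - singZ a z * N) - (S - singZ a z) * N := by ring
    rw [e]
    refine (abs_sub _ _).trans ?_
    have h6 : |(S - singZ a z) * N| ≤ 1 / L ^ (U + 2) * N := by
      rw [abs_mul, abs_of_pos hN0']
      exact mul_le_mul_of_nonneg_right hdiff2 hN0'.le
    calc |tupleCount a N - singZ a z * N| + |(S - singZ a z) * N| ≤ N / L ^ (U + 1) + 1 / L ^ (U + 2) * N := add_le_add hn1' h6
      _ = (1 / L + 1 / L ^ 2) * (N / L ^ U) := by rw [pow_add, pow_add]; field_simp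
      _ ≤ 1 * (N / L ^ U) := by
          apply mul_le_mul_of_nonneg_right _ (by positivity)
          have h7 : 1 / L ≤ 1 / 16 := one_div_le_one_div_of_le (by norm_num) hL16
          have h8 : 1 / L ^ 2 ≤ 1 / 16 := by
            apply one_div_le_one_div_of_le (by norm_num)
            nlinarith
          linarith
      _ = _ := one_mul _
  have hcard : ((Box.filter (fun m : Fin k → ℕ =>
        ¬ ∃ S : ℝ, Filter.Tendsto (fun z => singZ (fun i => (s i (m i) : ℤ)) z) Filter.atTop (nhds S) ∧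
        |tupleCount (fun i => (s i (m i) : ℤ)) N - S * N| ≤ (N : ℝ) / L ^ U)).card : ℝ) ≤ S1.card + S2.card := by
    exact_mod_cast (card_le_card hsub).trans (card_union_le _ _)
  refine hcard.trans ((add_le_add hA hDeg).trans ?_)
  set Q : ℝ := (∏ i, (x i : ℝ)) / L ^ U with hQ
  have hQ0 : 0 < Q := by positivity
  have e1 : (∏ i, (x i : ℝ)) / L ^ (U + 1) = Q * (1 / L) := by rw [hQ, pow_succ]; field_simp
  have e2 : ((k : ℝ) + k * k) * (1 / L ^ (U + 3) * ∏ i, (x i : ℝ)) = Q * ((k + k * k) / L ^ 3) := by rw [hQ, pow_add]; field_simp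
  rw [e1, e2, ← mul_add]
  have h6 : 1 / L + ((k : ℝ) + k * k) / L ^ 3 ≤ 1 := by
    have h7 : 1 / L ≤ 1 / 16 := one_div_le_one_div_of_le (by norm_num) hL16
    have h8 : ((k : ℝ) + k * k) / L ^ 3 ≤ 1 / 2 := by
      rw [div_le_iff₀ (by positivity)]
      have h9 : L ≤ L ^ 3 := le_self_pow₀ hL1 (by norm_num)
      linarith
    linarith
  calc Q * _ ≤ Q * 1 := mul_le_mul_of_nonneg_left h6 hQ0.le
    _ = Q := mul_one _

end Pool.Agent.H560R3.GB
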