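import Mathlib
import Pool.Agent.H560R3.GB.Tup2

set_option autoImplicit false
set_option maxHeartbeats 4000000

/-! From the weighted to the unweighted count of prime tuples. -/

namespace Pool.Agent.H560R3.GB

open Finset Pool.Agent.H373R2.T7

/-- The number of primes `p ≤ N` such that all `p + a i` are primes. -/
def primeTuples {k : ℕ} (a : Fin k → ℕ) (N : ℕ) : ℕ :=
  ((Icc 1 N).filter (fun p : ℕ => p.Prime ∧ ∀ i, (p + a i).Prime)).card

lemma tupleCount_nat {k : ℕ} (a : Fin k → ℕ) (N : ℕ) : tupleCount (fun i => (a i : ℤ)) N =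
    ∑ p ∈ (Icc 1 N).filter (fun p : ℕ => p.Prime ∧ ∀ i, (p + a i).Prime),
      Real.log p * ∏ i, Real.log ((p : ℝ) + a i) := by
  unfold tupleCount
  apply sum_congr
  · apply filter_congr
    intro p _
    have : ∀ i, ((p : ℤ) + (a i : ℤ)).toNat = p + a i := fun i => by omega
    simp only [this]
  · intro p _
    simp

lemma tuple_upper {k : ℕ} (a : Fin k → ℕ) (N B : ℕ) (ha : ∀ i, a i ≤ B * N) :
    tupleCount (fun i => (a i : ℤ)) N ≤ Real.log ((B + 1) * N) ^ (k + 1) * primeTuples a N := by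
  rw [tupleCount_nat]
  unfold primeTuples
  have h : ∀ p ∈ (Icc 1 N).filter (fun p : ℕ => p.Prime ∧ ∀ i, (p + a i).Prime),
      Real.log p * ∏ i, Real.log ((p : ℝ) + a i) ≤ Real.log ((B + 1) * N) ^ (k + 1) := by
    intro p hp
    rw [mem_filter, mem_Icc] at hp
    obtain ⟨⟨h1, h2⟩, h3⟩ := hp
    have h1r : (1 : ℝ) ≤ p := by exact_mod_cast h1
    have h2r : (p : ℝ) ≤ N := by exact_mod_cast h2
    have hB : (0 : ℝ) ≤ B := Nat.cast_nonneg _
    have hlog : Real.log p ≤ Real.log ((B + 1) * N) := by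
      apply Real.log_le_log (by linarith)
      nlinarith
    have hl0 : 0 ≤ Real.log ((B + 1) * N) := (Real.log_nonneg h1r).trans hlog
    rw [pow_succ']
    apply mul_le_mul hlog _ _ hl0
    · have h4 : ∏ i : Fin k, Real.log ((p : ℝ) + a i) ≤ ∏ i : Fin k, Real.log ((B + 1) * N) := by
        apply prod_le_prod
        · intro i _
          apply Real.log_nonneg
          have : (0 : ℝ) ≤ a i := Nat.cast_nonneg _
          linarith
        · intro i _
          have h5 : (a i : ℝ) ≤ B * N := by exact_mod_cast ha i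
          have h6 : (0 : ℝ) ≤ a i := Nat.cast_nonneg _
          apply Real.log_le_log (by linarith)
          nlinarith
      refine h4.trans (le_of_eq ?_)
      rw [prod_const, card_univ, Fintype.card_fin]
    · apply prod_nonneg
      intro i _
      apply Real.log_nonneg
      have : (0 : ℝ) ≤ a i := Nat.cast_nonneg _
      linarith
  refine (sum_le_sum h).trans (le_of_eq ?_)
  rw [sum_const, nsmul_eq_mul, mul_comm]

lemma tuple_lower {k : ℕ} (a : Fin k → ℕ) (N : ℕ) (T l : ℝ) (hT : 1 ≤ T) (hl : 0 ≤ l) (hlT : l ≤ Real.log T) :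
    l ^ (k + 1) * primeTuples a N ≤ tupleCount (fun i => (a i : ℤ)) N + l ^ (k + 1) * T := by
  rw [tupleCount_nat]
  unfold primeTuples
  set F := (Icc 1 N).filter (fun p : ℕ => p.Prime ∧ ∀ i, (p + a i).Prime) with hF
  have h : ∀ p ∈ F, l ^ (k + 1) ≤ Real.log p * ∏ i, Real.log ((p : ℝ) + a i) +
      l ^ (k + 1) * (if (p : ℝ) ≤ T then (1 : ℝ) else 0) := by
    intro p hp
    rw [hF, mem_filter, mem_Icc] at hp
    obtain ⟨⟨h1, h2⟩, h3⟩ := hp
    have h1r : (1 : ℝ) ≤ p := by exact_mod_cast h1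
    by_cases hpT : (p : ℝ) ≤ T
    · rw [if_pos hpT, mul_one]
      have : 0 ≤ Real.log p * ∏ i, Real.log ((p : ℝ) + a i) := by
        apply mul_nonneg (Real.log_nonneg h1r)
        apply prod_nonneg
        intro i _
        apply Real.log_nonneg
        have : (0 : ℝ) ≤ a i := Nat.cast_nonneg _
        linarith
      linarith
    · rw [if_neg hpT, mul_zero, add_zero]
      push Not at hpT
      have h4 : l ≤ Real.log p := hlT.trans (Real.log_le_log (by linarith) hpT.le)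
      rw [pow_succ']
      apply mul_le_mul h4 _ (by positivity) (hl.trans h4)
      calc l ^ k = ∏ i : Fin k, l := by rw [prod_const, card_univ, Fintype.card_fin]
        _ ≤ _ := by
          apply prod_le_prod
          · intro i _; exact hl
          · intro i _
            refine h4.trans (Real.log_le_log (by linarith) ?_)
            have : (0 : ℝ) ≤ a i := Nat.cast_nonneg _
            linarith
  have h2 := sum_le_sum h
  rw [sum_const, nsmul_eq_mul, sum_add_distrib, ← mul_sum, mul_comm] at h2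
  refine h2.trans ?_
  apply add_le_add le_rfl
  apply mul_le_mul_of_nonneg_left _ (by positivity)
  rw [← sum_filter, sum_const, nsmul_eq_mul, mul_one]
  have h3 : (F.filter (fun p : ℕ => (p : ℝ) ≤ T)).card ≤ ⌊T⌋₊ := by
    calc _ ≤ (Icc 1 ⌊T⌋₊).card := by
          apply card_le_card
          intro p hp
          rw [mem_filter, hF, mem_filter, mem_Icc] at hp
          rw [mem_Icc]
          exact ⟨hp.1.1.1, Nat.le_floor hp.2⟩
      _ = _ := by simp
  have h4 : ((F.filter (fun p : ℕ => (p : ℝ) ≤ T)).card : ℝ) ≤ ⌊T⌋₊ := by exact_mod_cast h3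
  exact h4.trans (Nat.floor_le (by linarith))

/-- the choice of the auxiliary parameter -/
lemma choose_delta (k : ℕ) (ε : ℝ) (hε : 0 < ε) : ∃ δ : ℝ, 0 < δ ∧ δ < 1 ∧
    (1 - ε) * (1 + δ) ^ (k + 1) ≤ 1 - δ ∧ 1 + 2 * δ ≤ (1 + ε) * (1 - δ) ^ (k + 1) := by
  have h1 : ∀ᶠ δ : ℝ in nhds 0, (1 - ε) * (1 + δ) ^ (k + 1) < 1 - δ := by
    apply ContinuousAt.eventually_lt
    · fun_prop
    · fun_prop
    · simp; exact hε
  have h2 : ∀ᶠ δ : ℝ in nhds 0, 1 + 2 * δ < (1 + ε) * (1 - δ) ^ (k + 1) := by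
    apply ContinuousAt.eventually_lt
    · fun_prop
    · fun_prop
    · simp; exact hε
  have h3 : ∀ᶠ δ : ℝ in nhds 0, δ < 1 := by
    apply ContinuousAt.eventually_lt continuousAt_id continuousAt_const
    simp
  have h4 : ∀ᶠ δ : ℝ in nhdsWithin 0 (Set.Ioi 0), δ ∈ Set.Ioi (0 : ℝ) := self_mem_nhdsWithin
  obtain ⟨δ, hδ⟩ := (((h1.and (h2.and h3)).filter_mono nhdsWithin_le_nhds).and h4).exists
  exact ⟨δ, hδ.2, hδ.1.2.2, hδ.1.1.le, hδ.1.2.1.le⟩

lemma tuple_transfer (k B : ℕ) (c ε : ℝ) (hc : 0 < c) (hε : 0 < ε) : ∃ n1 : ℕ, ∀ N : ℕ, n1 ≤ N →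
    ∀ a : Fin k → ℕ, (∀ i, a i ≤ B * N) → ∀ S : ℝ, c ≤ S →
    |tupleCount (fun i => (a i : ℤ)) N - S * N| ≤ N / Real.log N →
    |(primeTuples a N : ℝ) - S * (N / Real.log N ^ (k + 1))| ≤ ε * (S * (N / Real.log N ^ (k + 1))) := by
  obtain ⟨δ, hδ0, hδ1, hδa, hδb⟩ := choose_delta k ε hε
  have hlim : Filter.Tendsto (fun n : ℕ => (n : ℝ)) Filter.atTop Filter.atTop := tendsto_natCast_atTop_atTop
  have h1 : ∀ᶠ n : ℕ in Filter.atTop, Real.log n ^ (k + 1) ≤ (δ * c) * (n : ℝ) ^ δ := by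
    have h := (isLittleO_log_rpow_rpow_atTop ((k + 1 : ℕ) : ℝ) (show (0 : ℝ) < δ by positivity)).bound (show 0 < δ * c by positivity)
    filter_upwards [hlim.eventually h, hlim.eventually_ge_atTop 1] with n hn hn1
    have h0 : 0 ≤ Real.log (n : ℝ) := Real.log_nonneg hn1
    rw [Real.norm_of_nonneg (by positivity), Real.norm_of_nonneg (by positivity), Real.rpow_natCast] at hn
    exact hn
  obtain ⟨n1, hn1⟩ := Filter.eventually_atTop.1 h1
  obtain ⟨n2, hn2⟩ := ev_L' (Real.log (B + 1) / δ + 1 / (δ * c) + 1)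
  refine ⟨max n1 (max n2 3), fun N hN a ha S hS hT => ?_⟩
  have b1 := hn1 N ((le_max_left _ _).trans hN)
  have b2 := hn2 N (((le_max_left _ _).trans (le_max_right _ _)).trans hN)
  have hN3 : 3 ≤ N := ((le_max_right _ _).trans (le_max_right _ _)).trans hN
  have hNr : (3 : ℝ) ≤ N := by exact_mod_cast hN3
  have hN0 : (0 : ℝ) < N := by linarith
  have hB0 : (0 : ℝ) ≤ B := Nat.cast_nonneg _
  have hB1 : (0 : ℝ) < (B : ℝ) + 1 := by linarith
  have hlB : 0 ≤ Real.log ((B : ℝ) + 1) := Real.log_nonneg (by linarith)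
  set L := Real.log (N : ℝ) with hLd
  have q1 : 0 ≤ Real.log (B + 1) / δ := by positivity
  have q2 : 0 < 1 / (δ * c) := by positivity
  have hL1 : 1 ≤ L := by linarith
  have hL0 : 0 < L := by linarith
  have hLB : Real.log ((B : ℝ) + 1) ≤ δ * L := by
    have h : Real.log ((B : ℝ) + 1) / δ ≤ L := by linarith
    rw [div_le_iff₀ hδ0] at h
    linarith
  have hLc : 1 / L ≤ δ * c := by
    have h : 1 / (δ * c) ≤ L := by linarith
    rw [div_le_iff₀ (by positivity)] at h ⊢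
    linarith
  have hup := tuple_upper a N B ha
  have hlo := tuple_lower a N ((N : ℝ) ^ (1 - δ)) ((1 - δ) * L)
    (Real.one_le_rpow (by linarith) (by linarith)) (mul_nonneg (by linarith) hL0.le)
    (by rw [Real.log_rpow hN0])
  set T := tupleCount (fun i => (a i : ℤ)) N with hTd
  set P : ℝ := (primeTuples a N : ℝ) with hP
  have hP0 : 0 ≤ P := Nat.cast_nonneg _
  set M : ℝ := S * N with hM
  have hMc : c * N ≤ M := mul_le_mul_of_nonneg_right hS hN0.le
  have hM0 : 0 < M := lt_of_lt_of_le (by positivity) hMc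
  have hδM : N / L ≤ δ * M := by
    calc N / L = (1 / L) * N := by ring
      _ ≤ (δ * c) * N := mul_le_mul_of_nonneg_right hLc hN0.le
      _ = δ * (c * N) := by ring
      _ ≤ δ * M := mul_le_mul_of_nonneg_left hMc hδ0.le
  obtain ⟨t1, t2⟩ := abs_le.1 (hT.trans hδM)
  -- upper
  have hLp : Real.log ((B + 1) * N) ≤ (1 + δ) * L := by
    rw [Real.log_mul hB1.ne' hN0.ne', ← hLd]
    linarith
  have hLp0 : 0 ≤ Real.log ((B + 1) * N) := by
    apply Real.log_nonneg
    nlinarith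
  have u1 : T ≤ (1 + δ) ^ (k + 1) * (L ^ (k + 1) * P) := by
    refine hup.trans ?_
    rw [← mul_assoc, ← mul_pow]
    exact mul_le_mul_of_nonneg_right (pow_le_pow_left₀ hLp0 hLp _) hP0
  -- lower
  have u2 : (1 - δ) ^ (k + 1) * (L ^ (k + 1) * P) ≤ T + δ * M := by
    rw [← mul_assoc, ← mul_pow]
    refine hlo.trans ?_
    apply add_le_add le_rfl
    have h5 : ((1 - δ) * L) ^ (k + 1) ≤ L ^ (k + 1) := by
      apply pow_le_pow_left₀ (mul_nonneg (by linarith) hL0.le)
      nlinarith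
    have e : (N : ℝ) ^ (1 - δ) * (N : ℝ) ^ δ = N := by
      rw [← Real.rpow_add hN0]; norm_num
    calc ((1 - δ) * L) ^ (k + 1) * (N : ℝ) ^ (1 - δ) ≤ ((δ * c) * (N : ℝ) ^ δ) * (N : ℝ) ^ (1 - δ) :=
          mul_le_mul_of_nonneg_right (h5.trans b1) (by positivity)
      _ = δ * (c * ((N : ℝ) ^ (1 - δ) * (N : ℝ) ^ δ)) := by ring
      _ = δ * (c * N) := by rw [e]
      _ ≤ δ * M := mul_le_mul_of_nonneg_left hMc hδ0.le
  set X : ℝ := L ^ (k + 1) * P with hX
  have g1 : (1 - ε) * M ≤ X := by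
    have p1 : 0 < (1 + δ) ^ (k + 1) := by positivity
    have h6 : (1 - ε) * (1 + δ) ^ (k + 1) * M ≤ (1 - δ) * M := mul_le_mul_of_nonneg_right hδa hM0.le
    have h7 : (1 + δ) ^ (k + 1) * ((1 - ε) * M) ≤ (1 + δ) ^ (k + 1) * X := by
      have : (1 + δ) ^ (k + 1) * ((1 - ε) * M) = (1 - ε) * (1 + δ) ^ (k + 1) * M := by ring
      linarith
    exact le_of_mul_le_mul_left h7 p1
  have g2 : X ≤ (1 + ε) * M := by
    have p1 : 0 < (1 - δ) ^ (k + 1) := by
      have : 0 < 1 - δ := by linarith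
      positivity
    have h6 : (1 + 2 * δ) * M ≤ (1 + ε) * (1 - δ) ^ (k + 1) * M := mul_le_mul_of_nonneg_right hδb hM0.le
    have h7 : (1 - δ) ^ (k + 1) * X ≤ (1 - δ) ^ (k + 1) * ((1 + ε) * M) := by
      have : (1 - δ) ^ (k + 1) * ((1 + ε) * M) = (1 + ε) * (1 - δ) ^ (k + 1) * M := by ring
      linarith
    exact le_of_mul_le_mul_left h7 p1
  have hLk : 0 < L ^ (k + 1) := by positivity
  have e1 : S * (N / L ^ (k + 1)) = M / L ^ (k + 1) := by rw [hM]; ring
  have e2 : P = X / L ^ (k + 1) := by rw [hX]; field_simp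
  rw [e1, e2, ← sub_div, abs_div, abs_of_pos hLk, ← mul_div_assoc]
  apply div_le_div_of_nonneg_right _ hLk.le
  rw [abs_le]
  constructor <;> linarith

end Pool.Agent.H560R3.GB
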