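import Mathlib
import Pool.Agent.H560R3.GB.Tup3
import Pool.Agent.H560R3.GB.Unw

set_option autoImplicit false
set_option maxHeartbeats 4000000

/-! Primes `q` for which `d q + s(m)` is prime: the main term and the error term. -/

namespace Pool.Agent.H560R3.GB

open Finset Pool.Agent.H373R2.T7
open ArithmeticFunction (vonMangoldt)

/-- the condition on `n` modulo `p` -/
def Qd (d a p n : ℕ) : Prop := p ∣ d * n + a

lemma rho_d (d a p : ℕ) (hp : p.Prime) (hda : Nat.Coprime a d) : rhoA (Qd d a) p = if p ∣ d * a then 0 else 1 := by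
  classical
  unfold rhoA
  split_ifs with h
  · rw [card_eq_zero, filter_eq_empty_iff]
    intro r _ hr
    have hr2 : p ∣ d * r + a := hr.2
    rcases (hp.dvd_mul).1 h with h1 | h1
    · have h2 : p ∣ a := (Nat.dvd_add_right (h1.mul_right r)).1 hr2
      have h3 := Nat.dvd_gcd h2 h1
      rw [hda] at h3
      exact hp.one_lt.ne' (Nat.dvd_one.1 h3)
    · have h2 : p ∣ d * r := (Nat.dvd_add_left h1).1 hr2
      rcases (hp.dvd_mul).1 h2 with h3 | h3
      · have h4 := Nat.dvd_gcd h1 h3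
        rw [hda] at h4
        exact hp.one_lt.ne' (Nat.dvd_one.1 h4)
      · exact hr.1 h3
  · have hd : ¬ p ∣ d := fun h1 => h (h1.mul_right a)
    have ha : ¬ p ∣ a := fun h1 => h (h1.mul_left d)
    haveI : Fact p.Prime := ⟨hp⟩
    have hd0 : (d : ZMod p) ≠ 0 := fun h1 => hd ((ZMod.natCast_eq_zero_iff d p).1 h1)
    have key : ∀ r : ℕ, p ∣ d * r + a ↔ (r : ZMod p) = -(a : ZMod p) / d := by
      intro r
      rw [← ZMod.natCast_eq_zero_iff]
      push_cast
      rw [eq_div_iff hd0]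
      constructor
      · intro h1
        linear_combination h1
      · intro h1
        linear_combination h1
    rw [card_eq_one]
    refine ⟨(-(a : ZMod p) / d).val, ?_⟩
    ext r
    rw [mem_filter, mem_range, mem_singleton]
    constructor
    · rintro ⟨h1, _, h3⟩
      have h4 := (key r).1 h3
      rw [← h4, ZMod.val_natCast, Nat.mod_eq_of_lt h1]
    · rintro rfl
      have h5 : p ∣ d * (-(a : ZMod p) / d).val + a := (key _).2 (by rw [ZMod.natCast_val, ZMod.cast_id])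
      refine ⟨ZMod.val_lt _, fun h1 => ?_, h5⟩
      exact ha ((Nat.dvd_add_right (h1.mul_left d)).1 h5)

lemma perA_d (d a : ℕ) (hda : Nat.Coprime a d) : PerA (Qd d a) 1 := by
  constructor
  · intro p n
    unfold Qd
    have h1 := Nat.mod_add_div n p
    have h2 : d * n + a = (d * (n % p) + a) + p * (d * (n / p)) := by
      calc d * n + a = d * (n % p + p * (n / p)) + a := by rw [h1]
        _ = _ := by ring
    rw [h2]
    exact (Nat.dvd_add_left (dvd_mul_right _ _))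
  · intro p hp
    rw [rho_d d a p hp hda]
    split_ifs <;> omega

lemma main_d (E U : ℕ) : ∃ n0 : ℕ, ∀ N : ℕ, n0 ≤ N → ∀ z : ℕ, 1 ≤ z → (z : ℝ) ≤ Real.log N ^ E →
    ∀ d a : ℕ, 1 ≤ a → Nat.Coprime a d →
    |∑ n ∈ Icc 1 N, vonMangoldt n * lamz z (d * n + a) - N * Tz z (d * a)| ≤ (Vz z)⁻¹ * (N / Real.log N ^ U) := by
  classical
  obtain ⟨n0, h0⟩ := sys_main 1 E U le_rfl
  refine ⟨n0, fun N hn z hz1 hz2 d a ha hda => ?_⟩
  have h := h0 N hn z hz1 hz2 (Qd d a) (perA_d d a hda)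
  have hV : 0 < (Vz z)⁻¹ := inv_pos.2 (Vz_pos z)
  have e1 : ∑ n ∈ Icc 1 N, vonMangoldt n * lamz z (d * n + a) =
      (Vz z)⁻¹ * ∑ n ∈ (Icc 1 N).filter (fun n : ℕ => ∀ p ∈ pz z, ¬ Qd d a p n), vonMangoldt n := by
    rw [mul_sum, sum_filter]
    apply sum_congr rfl
    intro n _
    unfold lamz
    by_cases hc : ∀ p ∈ pz z, ¬ p ∣ (d * n + a)
    · rw [if_pos hc, if_pos (show ∀ p ∈ pz z, ¬ Qd d a p n from hc), mul_comm]
    · rw [if_neg hc, if_neg (show ¬ ∀ p ∈ pz z, ¬ Qd d a p n from hc), mul_zero]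
  have e3 : Tz z (d * a) = (Vz z)⁻¹ * ∏ p ∈ pz z, (1 - (rhoA (Qd d a) p : ℝ) / (p - 1 : ℝ)) := by
    unfold Tz
    congr 1
    apply prod_congr rfl
    intro p hp
    rw [rho_eq _ p (mem_pz.1 hp).2, rho_d d a p (mem_pz.1 hp).2 hda]
  have e2 : ∑ n ∈ Icc 1 N, vonMangoldt n * lamz z (d * n + a) - N * Tz z (d * a) = (Vz z)⁻¹ *
      (∑ n ∈ (Icc 1 N).filter (fun n : ℕ => ∀ p ∈ pz z, ¬ Qd d a p n), vonMangoldt n -
        N * ∏ p ∈ pz z, (1 - (rhoA (Qd d a) p : ℝ) / (p - 1 : ℝ))) := by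
    rw [e1, e3]
    ring
  rw [e2, abs_mul, abs_of_pos hV]
  exact mul_le_mul_of_nonneg_left h hV.le

lemma sum_multiples (d N : ℕ) (hd : 1 ≤ d) (F : ℕ → ℝ) :
    ∑ a ∈ Icc 1 (d * N), (if d ∣ a then F a else 0) = ∑ n ∈ Icc 1 N, F (d * n) := by
  rw [← sum_filter]
  symm
  apply sum_nbij' (fun n => d * n) (fun a => a / d)
  · intro n hn
    rw [mem_Icc] at hn
    rw [mem_filter, mem_Icc]
    exact ⟨⟨Nat.mul_pos hd hn.1, Nat.mul_le_mul_left _ hn.2⟩, dvd_mul_right _ _⟩
  · intro a ha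
    rw [mem_filter, mem_Icc] at ha
    obtain ⟨⟨h1, h2⟩, c, rfl⟩ := ha
    rw [Nat.mul_div_cancel_left c hd, mem_Icc]
    exact ⟨Nat.pos_of_mul_pos_left h1, Nat.le_of_mul_le_mul_left h2 hd⟩
  · intro n _
    exact Nat.mul_div_cancel_left n hd
  · intro a ha
    rw [mem_filter] at ha
    exact Nat.mul_div_cancel' ha.2
  · intro n _
    rfl

lemma diff_d (h C B E' U : ℕ) :
    ∃ B0 : ℕ, ∀ E : ℕ, ∃ N0 : ℕ, ∀ N : ℕ, N0 ≤ N → ∀ (x : ℕ) (s : ℕ → ℕ),
    (∀ m ∈ Icc 1 x, 1 ≤ s m ∧ s m ≤ B * N) →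
    (Pool.Agent.H373R2.T7.energy h x (fun m => (s m : ℤ)) : ℝ) * N ≤ Real.log N ^ C * (x : ℝ) ^ (2 * h) →
    ∀ d : ℕ, 1 ≤ d → (d : ℝ) ≤ Real.log N ^ E' →
    ∀ z : ℕ, Real.log N ^ B0 ≤ z → (z : ℝ) ≤ Real.log N ^ E →
    ∑ m ∈ Icc 1 x, |∑ n ∈ Icc 1 N, vonMangoldt n * (vonMangoldt (d * n + s m) - lamz z (d * n + s m))| ≤
      N * x / Real.log N ^ U := by
  obtain ⟨B0', hB0⟩ := lam_e h (B + 1) (C + E') (U + E' + 1)
  refine ⟨B0' + 1, fun E => ?_⟩
  obtain ⟨n1, h1⟩ := hB0 E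
  obtain ⟨n2, h2⟩ := ev_L' (2 ^ B0' + 1)
  obtain ⟨n3, h3⟩ := ev_log' E' 1
  refine ⟨n1 + n2 + n3 + 3, fun N hN x s hs hE d hd hdL z hz1 hz2 => ?_⟩
  have hL := h2 N (by omega)
  have a3 := h3 N (by omega)
  rw [one_mul] at a3
  have hN3 : (3 : ℝ) ≤ N := by exact_mod_cast (by omega : 3 ≤ N)
  have hN0 : (0 : ℝ) < N := by linarith
  set L := Real.log (N : ℝ) with hLd
  have hp2 : (0 : ℝ) < 2 ^ B0' := by positivity
  have hL1 : 1 ≤ L := by linarith
  have hL0 : 0 < L := by linarith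
  have hs0 : 0 < √(N : ℝ) := Real.sqrt_pos.2 hN0
  have hss : √(N : ℝ) * √(N : ℝ) = N := Real.mul_self_sqrt hN0.le
  have hs1 : 1 ≤ √(N : ℝ) := by
    rw [Real.one_le_sqrt]
    linarith
  have hdr : (1 : ℝ) ≤ d := by exact_mod_cast hd
  have hdN : (d : ℝ) ≤ N := by
    refine (hdL.trans a3).trans ?_
    nlinarith
  set M : ℕ := d * N with hM
  have hMr : (M : ℝ) = d * N := by rw [hM]; push_cast; ring
  have hNM : N ≤ M := Nat.le_mul_of_pos_left _ hd
  have hNMr : (N : ℝ) ≤ M := by exact_mod_cast hNM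
  have hlM1 : L ≤ Real.log M := Real.log_le_log hN0 hNMr
  have hlM2 : Real.log M ≤ 2 * L := by
    rw [hMr, Real.log_mul (by linarith) hN0.ne']
    have := Real.log_le_log (by linarith) hdN
    linarith
  have hlM0 : 0 < Real.log M := by linarith
  have h4 := h1 M (by omega) x (fun m => (s m : ℤ)) (fun m hm => by
      have h6 := (hs m hm).2
      rw [abs_of_nonneg (Int.natCast_nonneg _)]
      have h7 : s m ≤ (B + 1) * M := by
        calc s m ≤ B * N := h6
          _ ≤ (B + 1) * M := Nat.mul_le_mul (by omega) hNM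
      exact_mod_cast h7) (by
      rw [hMr]
      have hx0 : (0 : ℝ) ≤ (x : ℝ) ^ (2 * h) := by positivity
      calc (Pool.Agent.H373R2.T7.energy h x (fun m => (s m : ℤ)) : ℝ) * (d * N) =
            d * ((Pool.Agent.H373R2.T7.energy h x (fun m => (s m : ℤ)) : ℝ) * N) := by ring
        _ ≤ L ^ E' * (L ^ C * (x : ℝ) ^ (2 * h)) := mul_le_mul hdL hE (by positivity) (by positivity)
        _ = L ^ (C + E') * (x : ℝ) ^ (2 * h) := by rw [pow_add]; ring
        _ ≤ Real.log (d * N) ^ (C + E') * (x : ℝ) ^ (2 * h) := by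
            apply mul_le_mul_of_nonneg_right _ hx0
            rw [← hMr]
            exact pow_le_pow_left₀ hL0.le hlM1 _) M (Nat.le_mul_of_pos_left _ (by omega)) z (by
      calc Real.log M ^ B0' ≤ (2 * L) ^ B0' := pow_le_pow_left₀ hlM0.le hlM2 _
        _ = 2 ^ B0' * L ^ B0' := mul_pow _ _ _
        _ ≤ L * L ^ B0' := by
            apply mul_le_mul_of_nonneg_right _ (by positivity)
            linarith
        _ = L ^ (B0' + 1) := by ring
        _ ≤ z := hz1) (hz2.trans (pow_le_pow_left₀ hL0.le hlM1 _))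
  have h5 := l1_real M x (fun n m => lamI ((n : ℤ) + (s m : ℤ)) - lamzI z ((n : ℤ) + (s m : ℤ)))
        (M * x / Real.log M ^ (U + E' + 1)) L hL0 h4 (fun a => if d ∣ a then vonMangoldt (a / d) else 0) (by
        intro a ha
        rw [mem_Icc] at ha
        split_ifs with hda
        · obtain ⟨c, rfl⟩ := hda
          rw [Nat.mul_div_cancel_left c hd]
          rw [abs_of_nonneg ArithmeticFunction.vonMangoldt_nonneg]
          have hc1 : 1 ≤ c := Nat.pos_of_mul_pos_left ha.1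
          have hc2 : c ≤ N := Nat.le_of_mul_le_mul_left ha.2 hd
          exact ArithmeticFunction.vonMangoldt_le_log.trans (Real.log_le_log (by exact_mod_cast hc1) (by exact_mod_cast hc2))
        · simpa using hL0.le)
  have e1 : ∀ m ∈ Icc 1 x, |∑ n ∈ Icc 1 N, vonMangoldt n * (vonMangoldt (d * n + s m) - lamz z (d * n + s m))| =
      |∑ a ∈ Icc 1 M, (if d ∣ a then vonMangoldt (a / d) else 0) *
        (lamI ((a : ℤ) + (s m : ℤ)) - lamzI z ((a : ℤ) + (s m : ℤ)))| := by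
    intro m hm
    have hsm := (hs m hm).1
    congr 1
    have e2 : ∀ a ∈ Icc 1 M, (if d ∣ a then vonMangoldt (a / d) else 0) *
        (lamI ((a : ℤ) + (s m : ℤ)) - lamzI z ((a : ℤ) + (s m : ℤ))) =
        if d ∣ a then vonMangoldt (a / d) * (vonMangoldt (a + s m) - lamz z (a + s m)) else 0 := by
      intro a _
      have e3 : lamI ((a : ℤ) + (s m : ℤ)) = vonMangoldt (a + s m) := by
        unfold lamI
        rw [if_pos (by omega)]
        congr 1
      have e4 : lamzI z ((a : ℤ) + (s m : ℤ)) = lamz z (a + s m) := by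
        unfold lamzI
        rw [if_pos (by omega)]
        congr 1
      rw [e3, e4]
      split_ifs
      · rfl
      · rw [zero_mul]
    rw [sum_congr rfl e2, hM, sum_multiples d N hd]
    apply sum_congr rfl
    intro n _
    rw [Nat.mul_div_cancel_left n hd]
  rw [sum_congr rfl e1]
  refine h5.trans ?_
  have hx0 : (0 : ℝ) ≤ x := Nat.cast_nonneg _
  calc L * (M * x / Real.log M ^ (U + E' + 1)) ≤ L * ((L ^ E' * N) * x / L ^ (U + E' + 1)) := by
        apply mul_le_mul_of_nonneg_left _ hL0.le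
        apply div_le_div₀ (by positivity) _ (by positivity) (pow_le_pow_left₀ hL0.le hlM1 _)
        rw [hMr]
        apply mul_le_mul_of_nonneg_right _ hx0
        exact mul_le_mul_of_nonneg_right hdL hN0.le
    _ = N * x / L ^ U := by
        rw [pow_succ, pow_add]
        field_simp

end Pool.Agent.H560R3.GB
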