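import Mathlib
import Pool.Agent.H560R3.GB.AP1

set_option autoImplicit false
set_option maxHeartbeats 4000000

/-! Primes `q` for which `d q + a` is prime: from the weighted to the unweighted count. -/

namespace Pool.Agent.H560R3.GB

open Finset Pool.Agent.H373R2.T7
open ArithmeticFunction (vonMangoldt)

/-- the number of primes `q ≤ N` for which `a + q d` is prime -/
def cnt (d a N : ℕ) : ℕ := ((Icc 1 N).filter (fun q : ℕ => q.Prime ∧ (a + q * d).Prime)).card

noncomputable def Rd (d a N : ℕ) : ℝ := ∑ n ∈ Icc 1 N, vonMangoldt n * vonMangoldt (d * n + a)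

lemma cnt_real (d a N : ℕ) : (cnt d a N : ℝ) = ∑ n ∈ Icc 1 N, if n.Prime ∧ (d * n + a).Prime then (1 : ℝ) else 0 := by
  unfold cnt
  rw [card_filter]
  push_cast
  apply sum_congr rfl
  intro n _
  have : a + n * d = d * n + a := by ring
  rw [this]

lemma Rd_upper (d a N X : ℕ) (hd : 1 ≤ d) (hN : 1 ≤ N) (hX : d * N + a ≤ X) (l : ℝ) (hl : Real.log X ≤ l) :
    Rd d a N ≤ l ^ 2 * cnt d a N + 4 * √(X : ℝ) * l ^ 2 := by
  have hNX : N ≤ X := by
    have : N ≤ d * N := Nat.le_mul_of_pos_left _ hd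
    omega
  have hX1 : 1 ≤ X := by omega
  have hlX : 0 ≤ Real.log X := Real.log_natCast_nonneg X
  have hl0 : 0 ≤ l := hlX.trans hl
  have hlam : ∀ u : ℕ, u ≤ X → vonMangoldt u ≤ l := by
    intro u hu
    rcases Nat.eq_zero_or_pos u with h | h
    · rw [h]; simpa using hl0
    · exact ArithmeticFunction.vonMangoldt_le_log.trans ((Real.log_le_log (by exact_mod_cast h) (by exact_mod_cast hu)).trans hl)
  have h1 : ∀ n ∈ Icc 1 N, vonMangoldt n * vonMangoldt (d * n + a) ≤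
      l ^ 2 * (if n.Prime ∧ (d * n + a).Prime then (1 : ℝ) else 0) +
        l * (vonMangoldt n - lp n) + l * (vonMangoldt (d * n + a) - lp (d * n + a)) := by
    intro n hn
    rw [mem_Icc] at hn
    have hu : d * n + a ≤ X := le_trans (Nat.add_le_add_right (Nat.mul_le_mul_left _ hn.2) _) hX
    have a1 := hlam n (hn.2.trans hNX)
    have a2 := hlam _ hu
    have b1 : (0 : ℝ) ≤ vonMangoldt n := ArithmeticFunction.vonMangoldt_nonneg
    have b2 : (0 : ℝ) ≤ vonMangoldt (d * n + a) := ArithmeticFunction.vonMangoldt_nonneg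
    have c1 := lp_le n
    have c2 := lp_le (d * n + a)
    have d1 : 0 ≤ l * (vonMangoldt n - lp n) := mul_nonneg hl0 (by linarith)
    have d2 : 0 ≤ l * (vonMangoldt (d * n + a) - lp (d * n + a)) := mul_nonneg hl0 (by linarith)
    by_cases h : n.Prime ∧ (d * n + a).Prime
    · rw [if_pos h]
      have : vonMangoldt n * vonMangoldt (d * n + a) ≤ l * l := mul_le_mul a1 a2 b2 hl0
      nlinarith
    · rw [if_neg h, mul_zero, zero_add]
      by_cases h1 : n.Prime
      · have h2 : ¬ (d * n + a).Prime := fun h2 => h ⟨h1, h2⟩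
        have e : lp (d * n + a) = 0 := by unfold lp; rw [if_neg h2]
        rw [e] at d2 ⊢
        have : vonMangoldt n * vonMangoldt (d * n + a) ≤ l * vonMangoldt (d * n + a) := mul_le_mul_of_nonneg_right a1 b2
        linarith
      · have e : lp n = 0 := by unfold lp; rw [if_neg h1]
        rw [e] at d1 ⊢
        have : vonMangoldt n * vonMangoldt (d * n + a) ≤ vonMangoldt n * l := mul_le_mul_of_nonneg_left a2 b1
        linarith
  unfold Rd
  refine (sum_le_sum h1).trans ?_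
  rw [sum_add_distrib, sum_add_distrib, ← mul_sum, ← mul_sum, ← mul_sum, ← cnt_real]
  have hpp := sum_pp X hX1
  have hnn : ∀ u : ℕ, 0 ≤ vonMangoldt u - lp u := fun u => by linarith [lp_le u]
  have e1 : ∑ n ∈ Icc 1 N, (vonMangoldt n - lp n) ≤ ∑ u ∈ range (X + 1), (vonMangoldt u - lp u) := by
    apply sum_le_sum_of_subset_of_nonneg
    · intro n hn
      rw [mem_Icc] at hn
      rw [mem_range]
      omega
    · intro u _ _
      exact hnn u
  have e2 : ∑ n ∈ Icc 1 N, (vonMangoldt (d * n + a) - lp (d * n + a)) ≤ ∑ u ∈ range (X + 1), (vonMangoldt u - lp u) := by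
    rw [← sum_image (f := fun u => vonMangoldt u - lp u) (g := fun n => d * n + a) (s := Icc 1 N)]
    · apply sum_le_sum_of_subset_of_nonneg
      · intro u hu
        rw [mem_image] at hu
        obtain ⟨n, hn, rfl⟩ := hu
        rw [mem_Icc] at hn
        rw [mem_range]
        have : d * n + a ≤ X := le_trans (Nat.add_le_add_right (Nat.mul_le_mul_left _ hn.2) _) hX
        omega
      · intro u _ _
        exact hnn u
    · intro n _ n' _ hnn'
      simp only at hnn'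
      have : d * n = d * n' := by omega
      exact Nat.eq_of_mul_eq_mul_left hd this
  have hsX : 0 ≤ √(X : ℝ) := Real.sqrt_nonneg _
  have h3 : 2 * √(X : ℝ) * Real.log X ≤ 2 * √(X : ℝ) * l := mul_le_mul_of_nonneg_left hl (by positivity)
  have h4 : l * ∑ n ∈ Icc 1 N, (vonMangoldt n - lp n) ≤ l * (2 * √(X : ℝ) * l) :=
    mul_le_mul_of_nonneg_left (by linarith) hl0
  have h5 : l * ∑ n ∈ Icc 1 N, (vonMangoldt (d * n + a) - lp (d * n + a)) ≤ l * (2 * √(X : ℝ) * l) :=
    mul_le_mul_of_nonneg_left (by linarith) hl0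
  have h6 : l * (2 * √(X : ℝ) * l) + l * (2 * √(X : ℝ) * l) = 4 * √(X : ℝ) * l ^ 2 := by ring
  linarith

lemma Rd_lower (d a N : ℕ) (T l : ℝ) (hd : 1 ≤ d) (hT : 1 ≤ T) (hl : 0 ≤ l) (hlT : l ≤ Real.log T) :
    l ^ 2 * cnt d a N ≤ Rd d a N + l ^ 2 * T := by
  have h1 : ∀ n ∈ Icc 1 N, l ^ 2 * (if n.Prime ∧ (d * n + a).Prime then (1 : ℝ) else 0) ≤
      vonMangoldt n * vonMangoldt (d * n + a) + l ^ 2 * (if (n : ℝ) ≤ T then (1 : ℝ) else 0) := by
    intro n hn
    rw [mem_Icc] at hn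
    have b1 : (0 : ℝ) ≤ vonMangoldt n := ArithmeticFunction.vonMangoldt_nonneg
    have b2 : (0 : ℝ) ≤ vonMangoldt (d * n + a) := ArithmeticFunction.vonMangoldt_nonneg
    have b3 := mul_nonneg b1 b2
    have hl2 : 0 ≤ l ^ 2 := by positivity
    have i1 : 0 ≤ l ^ 2 * (if (n : ℝ) ≤ T then (1 : ℝ) else 0) := mul_nonneg hl2 (by split_ifs <;> norm_num)
    by_cases h : n.Prime ∧ (d * n + a).Prime
    · rw [if_pos h, mul_one]
      by_cases t1 : (n : ℝ) ≤ T
      · rw [if_pos t1, mul_one]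
        linarith
      · push Not at t1
        have c1 : l ≤ vonMangoldt n := by
          rw [ArithmeticFunction.vonMangoldt_apply_prime h.1]
          exact hlT.trans (Real.log_le_log (by linarith) t1.le)
        have c2 : l ≤ vonMangoldt (d * n + a) := by
          rw [ArithmeticFunction.vonMangoldt_apply_prime h.2]
          refine hlT.trans (Real.log_le_log (by linarith) (t1.le.trans ?_))
          have : n ≤ d * n + a := (Nat.le_mul_of_pos_left _ hd).trans (Nat.le_add_right _ _)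
          exact_mod_cast this
        have c3 : l * l ≤ vonMangoldt n * vonMangoldt (d * n + a) := mul_le_mul c1 c2 hl b1
        nlinarith
    · rw [if_neg h, mul_zero]
      linarith
  have h2 := sum_le_sum h1
  rw [← mul_sum, ← cnt_real, sum_add_distrib, ← mul_sum] at h2
  refine h2.trans ?_
  unfold Rd
  apply add_le_add le_rfl
  apply mul_le_mul_of_nonneg_left _ (by positivity)
  rw [← sum_filter, sum_const, nsmul_eq_mul, mul_one]
  have h3 : ((Icc 1 N).filter (fun n : ℕ => (n : ℝ) ≤ T)).card ≤ ⌊T⌋₊ := by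
    calc _ ≤ (Icc 1 ⌊T⌋₊).card := by
          apply card_le_card
          intro n hn
          rw [mem_filter, mem_Icc] at hn
          rw [mem_Icc]
          exact ⟨hn.1.1, Nat.le_floor hn.2⟩
      _ = _ := by simp
  have h4 : (((Icc 1 N).filter (fun n : ℕ => (n : ℝ) ≤ T)).card : ℝ) ≤ ⌊T⌋₊ := by exact_mod_cast h3
  exact h4.trans (Nat.floor_le (by linarith))

lemma transfer_d (B E' : ℕ) (ε : ℝ) (hε : 0 < ε) : ∃ n1 : ℕ, ∀ N : ℕ, n1 ≤ N →
    ∀ d a : ℕ, 1 ≤ d → (d : ℝ) ≤ Real.log N ^ E' → a ≤ B * N → ∀ M : ℝ, (N : ℝ) / 2 ≤ M →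
    |Rd d a N - M| ≤ 20 / Real.log N * M →
    |(cnt d a N : ℝ) - M / Real.log N ^ 2| ≤ ε * (M / Real.log N ^ 2) := by
  obtain ⟨δ, hδ0, hδ1, hδa, hδb⟩ := choose_delta 1 ε hε
  have hlim : Filter.Tendsto (fun n : ℕ => (n : ℝ)) Filter.atTop Filter.atTop := tendsto_natCast_atTop_atTop
  have hlog : ∀ (j : ℕ) (η c : ℝ), 0 < η → 0 < c → ∀ᶠ n : ℕ in Filter.atTop, Real.log n ^ j ≤ c * (n : ℝ) ^ η := by
    intro j η c hη hc
    have h := (isLittleO_log_rpow_rpow_atTop ((j : ℕ) : ℝ) hη).bound hc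
    filter_upwards [hlim.eventually h, hlim.eventually_ge_atTop 1] with n hn hn1
    have h0 : 0 ≤ Real.log (n : ℝ) := Real.log_nonneg hn1
    rw [Real.norm_of_nonneg (by positivity), Real.norm_of_nonneg (by positivity), Real.rpow_natCast] at hn
    exact hn
  have h1 := hlog 2 δ (δ / 4) hδ0 (by positivity)
  have h2 := hlog 2 ((1 - δ) / 2) (δ / 64) (by linarith) (by positivity)
  have h3 := hlog (E' + 1) δ 1 hδ0 one_pos
  obtain ⟨n1, hn1⟩ := Filter.eventually_atTop.1 (h1.and (h2.and h3))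
  obtain ⟨n2, hn2⟩ := ev_L' (40 / δ + B + 2)
  refine ⟨max n1 (max n2 3), fun N hN d a hd hdL haB M hM hR => ?_⟩
  obtain ⟨b1, b2, b3⟩ := hn1 N ((le_max_left _ _).trans hN)
  have hL := hn2 N (((le_max_left _ _).trans (le_max_right _ _)).trans hN)
  have hN3 : 3 ≤ N := ((le_max_right _ _).trans (le_max_right _ _)).trans hN
  have hNr : (3 : ℝ) ≤ N := by exact_mod_cast hN3
  have hN0 : (0 : ℝ) < N := by linarith
  have hB0 : (0 : ℝ) ≤ B := Nat.cast_nonneg _
  set L := Real.log (N : ℝ) with hLd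
  have q1 : 0 < 40 / δ := by positivity
  have hL1 : 1 ≤ L := by linarith
  have hL0 : 0 < L := by linarith
  have hLδ : 20 / L ≤ δ / 2 := by
    have h : 40 / δ ≤ L := by linarith
    rw [div_le_iff₀ hδ0] at h
    rw [div_le_div_iff₀ hL0 (by norm_num)]
    linarith
  have hM0 : 0 < M := by linarith
  obtain ⟨t1, t2⟩ := abs_le.1 (hR.trans (mul_le_mul_of_nonneg_right hLδ hM0.le))
  set R := Rd d a N with hRd
  set P : ℝ := (cnt d a N : ℝ) with hP
  have hP0 : 0 ≤ P := Nat.cast_nonneg _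
  -- upper bound for the weighted count
  set X : ℕ := d * N + a with hX
  have hXr : (X : ℝ) ≤ (N : ℝ) ^ (1 + δ) := by
    have h5 : (a : ℝ) ≤ B * N := by exact_mod_cast haB
    have h6 : (X : ℝ) = d * N + a := by rw [hX]; push_cast; ring
    have h7 : L ^ E' + B ≤ L ^ (E' + 1) := by
      have h8 : 1 ≤ L ^ E' := one_le_pow₀ hL1
      rw [pow_succ]
      nlinarith
    have e : (N : ℝ) ^ (1 + δ) = N * (N : ℝ) ^ δ := by rw [Real.rpow_add hN0, Real.rpow_one]
    rw [h6, e]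
    calc (d : ℝ) * N + a ≤ L ^ E' * N + B * N := add_le_add (mul_le_mul_of_nonneg_right hdL hN0.le) h5
      _ = N * (L ^ E' + B) := by ring
      _ ≤ N * (1 * (N : ℝ) ^ δ) := mul_le_mul_of_nonneg_left (h7.trans b3) hN0.le
      _ = _ := by ring
  have hX0 : (0 : ℝ) < X := by
    have : 0 < X := by
      have := Nat.mul_pos (show 0 < d by omega) (show 0 < N by omega)
      omega
    exact_mod_cast this
  have hlX : Real.log X ≤ (1 + δ) * L := by
    have h5 := Real.log_le_log hX0 hXr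
    rwa [Real.log_rpow hN0] at h5
  have hup := Rd_upper d a N X hd (by omega) le_rfl ((1 + δ) * L) hlX
  have hlo := Rd_lower d a N ((N : ℝ) ^ (1 - δ)) ((1 - δ) * L) hd
    (Real.one_le_rpow (by linarith) (by linarith)) (mul_nonneg (by linarith) hL0.le)
    (by rw [Real.log_rpow hN0])
  have u1 : 4 * √(X : ℝ) * ((1 + δ) * L) ^ 2 ≤ δ / 2 * M := by
    have h5 : √(X : ℝ) ≤ (N : ℝ) ^ ((1 + δ) / 2) := by
      rw [Real.sqrt_eq_rpow]
      have h6 := Real.rpow_le_rpow hX0.le hXr (show (0 : ℝ) ≤ 1 / 2 by norm_num)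
      rw [← Real.rpow_mul hN0.le] at h6
      have e : (1 + δ) * (1 / 2) = (1 + δ) / 2 := by ring
      rwa [e] at h6
    have h7 : ((1 + δ) * L) ^ 2 ≤ 4 * L ^ 2 := by
      rw [mul_pow]
      have : (1 + δ) ^ 2 ≤ 4 := by nlinarith
      exact mul_le_mul_of_nonneg_right this (by positivity)
    have e : (N : ℝ) ^ ((1 + δ) / 2) * (N : ℝ) ^ ((1 - δ) / 2) = N := by
      rw [← Real.rpow_add hN0]
      have : (1 + δ) / 2 + (1 - δ) / 2 = 1 := by ring
      rw [this, Real.rpow_one]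
    calc 4 * √(X : ℝ) * ((1 + δ) * L) ^ 2 ≤ 4 * (N : ℝ) ^ ((1 + δ) / 2) * (4 * L ^ 2) := by gcongr
      _ ≤ 4 * (N : ℝ) ^ ((1 + δ) / 2) * (4 * (δ / 64 * (N : ℝ) ^ ((1 - δ) / 2))) := by gcongr
      _ = δ / 4 * ((N : ℝ) ^ ((1 + δ) / 2) * (N : ℝ) ^ ((1 - δ) / 2)) := by ring
      _ = δ / 4 * N := by rw [e]
      _ = δ / 2 * (N / 2) := by ring
      _ ≤ δ / 2 * M := mul_le_mul_of_nonneg_left hM (by positivity)
  have u2 : ((1 - δ) * L) ^ 2 * (N : ℝ) ^ (1 - δ) ≤ δ / 2 * M := by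
    have e : (N : ℝ) ^ (1 - δ) * (N : ℝ) ^ δ = N := by
      rw [← Real.rpow_add hN0]; norm_num
    have h5 : ((1 - δ) * L) ^ 2 ≤ L ^ 2 := by
      apply pow_le_pow_left₀ (mul_nonneg (by linarith) hL0.le)
      nlinarith
    calc ((1 - δ) * L) ^ 2 * (N : ℝ) ^ (1 - δ) ≤ (δ / 4 * (N : ℝ) ^ δ) * (N : ℝ) ^ (1 - δ) :=
          mul_le_mul_of_nonneg_right (h5.trans b1) (by positivity)
      _ = δ / 4 * ((N : ℝ) ^ (1 - δ) * (N : ℝ) ^ δ) := by ring
      _ = δ / 4 * N := by rw [e]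
      _ = δ / 2 * (N / 2) := by ring
      _ ≤ δ / 2 * M := mul_le_mul_of_nonneg_left hM (by positivity)
  set Y : ℝ := L ^ 2 * P with hY
  have v1 : (1 - δ) * M ≤ (1 + δ) ^ (1 + 1) * Y := by
    have : ((1 + δ) * L) ^ 2 * P = (1 + δ) ^ (1 + 1) * Y := by rw [hY]; ring
    linarith
  have v2 : (1 - δ) ^ (1 + 1) * Y ≤ (1 + 2 * δ) * M := by
    have : ((1 - δ) * L) ^ 2 * P = (1 - δ) ^ (1 + 1) * Y := by rw [hY]; ring
    have h5 : 0 ≤ δ * M := by positivity
    linarith
  have g1 : (1 - ε) * M ≤ Y := by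
    have p1 : 0 < (1 + δ) ^ (1 + 1) := by positivity
    have h6 : (1 - ε) * (1 + δ) ^ (1 + 1) * M ≤ (1 - δ) * M := mul_le_mul_of_nonneg_right hδa hM0.le
    have h7 : (1 + δ) ^ (1 + 1) * ((1 - ε) * M) ≤ (1 + δ) ^ (1 + 1) * Y := by
      have : (1 + δ) ^ (1 + 1) * ((1 - ε) * M) = (1 - ε) * (1 + δ) ^ (1 + 1) * M := by ring
      linarith
    exact le_of_mul_le_mul_left h7 p1
  have g2 : Y ≤ (1 + ε) * M := by
    have p1 : 0 < (1 - δ) ^ (1 + 1) := by
      have : 0 < 1 - δ := by linarith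
      positivity
    have h6 : (1 + 2 * δ) * M ≤ (1 + ε) * (1 - δ) ^ (1 + 1) * M := mul_le_mul_of_nonneg_right hδb hM0.le
    have h7 : (1 - δ) ^ (1 + 1) * Y ≤ (1 - δ) ^ (1 + 1) * ((1 + ε) * M) := by
      have : (1 - δ) ^ (1 + 1) * ((1 + ε) * M) = (1 + ε) * (1 - δ) ^ (1 + 1) * M := by ring
      linarith
    exact le_of_mul_le_mul_left h7 p1
  have hLk : 0 < L ^ 2 := by positivity
  have e2 : P = Y / L ^ 2 := by rw [hY]; field_simp
  rw [e2, ← sub_div, abs_div, abs_of_pos hLk, ← mul_div_assoc]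
  apply div_le_div_of_nonneg_right _ hLk.le
  rw [abs_le]
  constructor <;> linarith

end Pool.Agent.H560R3.GB
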