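import Mathlib
import Pool.Agent.H560R3.GB.AP2

set_option autoImplicit false
set_option maxHeartbeats 4000000

/-! Primes `q` for which `a + q d` is prime, for almost all members `a` of a family of nearly minimal
additive energy and all small `d`. -/

namespace Pool.Agent.H560R3.GB

open Finset Pool.Agent.H373R2.T7
open ArithmeticFunction (vonMangoldt)

theorem ap_main (h C B E' U : ℕ) (ε : ℝ) (hε : 0 < ε) :
    ∃ N₀ : ℕ, ∀ N : ℕ, N₀ ≤ N → ∀ (x : ℕ) (s : ℕ → ℕ),
      (∀ m ∈ Icc 1 x, 1 ≤ s m ∧ s m ≤ B * N) →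
      (Pool.Agent.H373R2.T7.energy h x (fun m => (s m : ℤ)) : ℝ) * N ≤ Real.log N ^ C * (x : ℝ) ^ (2 * h) →
      ∃ S : Finset ℕ, (S.card : ℝ) ≤ x / Real.log N ^ U ∧ ∀ m ∈ Icc 1 x, m ∉ S →
        ∀ d : ℕ, 1 ≤ d → (d : ℝ) ≤ Real.log N ^ E' → Nat.Coprime (s m) d → Even (d * s m) →
        |(cnt d (s m) N : ℝ) - sing (d * s m) * (N / Real.log N ^ 2)| ≤
          ε * (sing (d * s m) * (N / Real.log N ^ 2)) := by
  classical
  obtain ⟨B0, hB0⟩ := diff_d h C B E' (U + E' + 3)
  set B1 : ℕ := max B0 3 with hB1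
  obtain ⟨n1, h1⟩ := hB0 (B1 + 1)
  obtain ⟨n2, h2⟩ := main_d (B1 + 1) 2
  obtain ⟨n3, h3⟩ := transfer_d B E' ε hε
  obtain ⟨n4, h4⟩ := Vz_inv_small (B1 + 1)
  obtain ⟨n5, h5⟩ := ev_L' (B + 20)
  obtain ⟨n6, h6⟩ := ev_log' (E' + 1) 1
  refine ⟨n1 + n2 + n3 + n4 + n5 + n6 + 3, fun N hN x s hs hE => ?_⟩
  have hL := h5 N (by omega)
  have a6 := h6 N (by omega)
  rw [one_mul] at a6
  have hN3 : (3 : ℝ) ≤ N := by exact_mod_cast (by omega : 3 ≤ N)
  have hN0 : (0 : ℝ) < N := by linarith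
  set L := Real.log (N : ℝ) with hLd
  have hBr : (0 : ℝ) ≤ B := Nat.cast_nonneg _
  have hL20 : 20 ≤ L := by linarith
  have hLB : (B : ℝ) ≤ L := by linarith
  have hL1 : 1 ≤ L := by linarith
  have hL0 : 0 < L := by linarith
  have hs0 : 0 < √(N : ℝ) := Real.sqrt_pos.2 hN0
  have hss : √(N : ℝ) * √(N : ℝ) = N := Real.mul_self_sqrt hN0.le
  have hs1 : 1 ≤ √(N : ℝ) := by
    rw [Real.one_le_sqrt]
    linarith
  obtain ⟨z, hz⟩ : ∃ z, z = ⌈L ^ B1⌉₊ := ⟨_, rfl⟩
  have hz1 : L ^ B1 ≤ z := by rw [hz]; exact Nat.le_ceil _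
  have hz2 : (z : ℝ) ≤ L ^ (B1 + 1) := by
    have h5 : (z : ℝ) < L ^ B1 + 1 := by rw [hz]; exact Nat.ceil_lt_add_one (by positivity)
    have h6 : 1 ≤ L ^ B1 := one_le_pow₀ hL1
    calc (z : ℝ) ≤ L ^ B1 + 1 := h5.le
      _ ≤ L ^ B1 * 2 := by linarith
      _ ≤ L ^ B1 * L := mul_le_mul_of_nonneg_left (by linarith) (by positivity)
      _ = L ^ (B1 + 1) := by rw [pow_succ]
  have hzB0 : L ^ B0 ≤ z := (pow_le_pow_right₀ hL1 (le_max_left _ _)).trans hz1
  have hz3 : L ^ 3 ≤ z := (pow_le_pow_right₀ hL1 (le_max_right _ _)).trans hz1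
  have hz0 : 1 ≤ z := by
    have : (1 : ℝ) ≤ z := (one_le_pow₀ hL1).trans hz1
    exact_mod_cast this
  have hV := h4 N (by omega) z hz0 hz2
  set D : ℕ := ⌊L ^ E'⌋₊ with hD
  have hDL : (D : ℝ) ≤ L ^ E' := Nat.floor_le (by positivity)
  set τ : ℝ := N / L ^ 2 with hτ
  have hτ0 : 0 < τ := by positivity
  set W : ℕ → ℕ → ℝ := fun d m => |∑ n ∈ Icc 1 N, vonMangoldt n * (vonMangoldt (d * n + s m) - lamz z (d * n + s m))| with hW
  have hxr : (0 : ℝ) ≤ x := Nat.cast_nonneg _
  have hcd : ∀ d ∈ Icc 1 D, (((Icc 1 x).filter (fun m => τ < W d m)).card : ℝ) ≤ x / L ^ (U + E' + 1) := by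
    intro d hd
    rw [mem_Icc] at hd
    have hdL : (d : ℝ) ≤ L ^ E' := le_trans (by exact_mod_cast hd.2) hDL
    have hmom := h1 N (by omega) x s hs hE d hd.1 hdL z hzB0 hz2
    set T := (Icc 1 x).filter (fun m => τ < W d m) with hT
    have h5 : (T.card : ℝ) * τ ≤ ∑ m ∈ Icc 1 x, W d m := by
      calc (T.card : ℝ) * τ = ∑ _m ∈ T, τ := by rw [sum_const, nsmul_eq_mul]
        _ ≤ ∑ m ∈ T, W d m := sum_le_sum fun m hm => (mem_filter.1 hm).2.le
        _ ≤ _ := sum_le_sum_of_subset_of_nonneg (filter_subset _ _) fun _ _ _ => abs_nonneg _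
    have h6 := h5.trans hmom
    rw [← le_div_iff₀ hτ0] at h6
    refine h6.trans (le_of_eq ?_)
    rw [hτ, show U + E' + 3 = (U + E' + 1) + 2 by ring, pow_add L (U + E' + 1) 2]
    field_simp
  refine ⟨(Icc 1 D).biUnion (fun d => (Icc 1 x).filter (fun m => τ < W d m)), ?_, ?_⟩
  · have h5 : (((Icc 1 D).biUnion (fun d => (Icc 1 x).filter (fun m => τ < W d m))).card : ℝ) ≤
        ∑ d ∈ Icc 1 D, (((Icc 1 x).filter (fun m => τ < W d m)).card : ℝ) := by
      exact_mod_cast card_biUnion_le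
    refine h5.trans ((sum_le_sum hcd).trans ?_)
    rw [sum_const, nsmul_eq_mul, Nat.card_Icc, Nat.add_sub_cancel]
    calc (D : ℝ) * (x / L ^ (U + E' + 1)) ≤ L ^ E' * (x / L ^ (U + E' + 1)) :=
          mul_le_mul_of_nonneg_right hDL (by positivity)
      _ = (1 / L) * (x / L ^ U) := by
          rw [pow_succ, pow_add]
          field_simp
      _ ≤ 1 * (x / L ^ U) := by
          apply mul_le_mul_of_nonneg_right _ (by positivity)
          rw [div_le_one hL0]
          linarith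
      _ = _ := one_mul _
  · intro m hm hmS d hd hdL hcop hev
    have hsm := hs m hm
    have hWd : W d m ≤ τ := by
      by_contra hcon
      apply hmS
      rw [mem_biUnion]
      exact ⟨d, mem_Icc.2 ⟨hd, Nat.le_floor hdL⟩, mem_filter.2 ⟨hm, lt_of_not_ge hcon⟩⟩
    set Z := ∑ n ∈ Icc 1 N, vonMangoldt n * lamz z (d * n + s m) with hZ
    have e1 : ∑ n ∈ Icc 1 N, vonMangoldt n * (vonMangoldt (d * n + s m) - lamz z (d * n + s m)) = Rd d (s m) N - Z := by
      unfold Rd
      rw [hZ, ← sum_sub_distrib]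
      apply sum_congr rfl
      intro n _
      rw [mul_sub]
    have r1 : |Rd d (s m) N - Z| ≤ N / L ^ 2 := by
      rw [← e1]
      exact hWd
    have r2 := h2 N (by omega) z hz0 hz2 d (s m) hsm.1 hcop
    rw [← hZ] at r2
    set T := Tz z (d * s m) with hT
    have r3 : |Z - N * T| ≤ N / L := by
      refine r2.trans ?_
      calc (Vz z)⁻¹ * (N / L ^ 2) ≤ L * (N / L ^ 2) := mul_le_mul_of_nonneg_right hV (by positivity)
        _ = N / L := by field_simp
    have hdpos : 1 ≤ d * s m := Nat.mul_pos hd hsm.1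
    obtain ⟨r4, hT1⟩ := sing_close z (d * s m) (2 * L) hev hdpos (by
      have h7 : ((d * s m : ℕ) : ℝ) ≤ N * N := by
        push_cast
        have h8 : (s m : ℝ) ≤ B * N := by exact_mod_cast hsm.2
        calc (d : ℝ) * s m ≤ L ^ E' * (L * N) := by
              apply mul_le_mul hdL _ (Nat.cast_nonneg _) (by positivity)
              exact h8.trans (mul_le_mul_of_nonneg_right hLB hN0.le)
          _ = L ^ (E' + 1) * N := by rw [pow_succ]; ring
          _ ≤ √(N : ℝ) * N := mul_le_mul_of_nonneg_right a6 hN0.le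
          _ ≤ N * N := by
              apply mul_le_mul_of_nonneg_right _ hN0.le
              nlinarith
      have h9 : (0 : ℝ) < ((d * s m : ℕ) : ℝ) := by exact_mod_cast hdpos
      have h10 := Real.log_le_log h9 h7
      rw [Real.log_mul hN0.ne' hN0.ne', ← hLd] at h10
      linarith) (by linarith) (by
      refine le_trans ?_ hz3
      have : (2 * L) ^ 2 = 4 * L ^ 2 := by ring
      rw [this, pow_succ L 2]
      nlinarith [sq_nonneg L])
    have hT0 : 0 < T := by linarith
    have r5 : |sing (d * s m) - T| ≤ 4 / L * T := by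
      refine r4.trans (le_of_eq ?_)
      field_simp
      ring
    have h45 : 4 / L ≤ 1 / 5 := by
      rw [div_le_div_iff₀ hL0 (by norm_num)]
      linarith
    have r6 : 4 / L * T ≤ 1 / 5 * T := mul_le_mul_of_nonneg_right h45 hT0.le
    obtain ⟨s1, s2⟩ := abs_le.1 r5
    have r7 : 4 / 5 * T ≤ sing (d * s m) := by linarith
    have hM : (N : ℝ) / 2 ≤ sing (d * s m) * N := by
      have : 1 / 2 ≤ sing (d * s m) := by linarith
      nlinarith
    have key : |Rd d (s m) N - sing (d * s m) * N| ≤ 20 / L * (sing (d * s m) * N) := by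
      have e2 : Rd d (s m) N - sing (d * s m) * N = (Rd d (s m) N - Z) + (Z - N * T) - (sing (d * s m) - T) * N := by ring
      rw [e2]
      have h7 : |(sing (d * s m) - T) * N| ≤ 4 / L * T * N := by
        rw [abs_mul, abs_of_pos hN0]
        exact mul_le_mul_of_nonneg_right r5 hN0.le
      have h8 := abs_sub ((Rd d (s m) N - Z) + (Z - N * T)) ((sing (d * s m) - T) * N)
      have h9 := abs_add_le (Rd d (s m) N - Z) (Z - N * T)
      have h10 : N / L ^ 2 ≤ 1 / L * (T * N) := by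
        calc N / L ^ 2 ≤ N / L := by
              apply div_le_div_of_nonneg_left hN0.le hL0
              nlinarith
          _ = 1 / L * N := by ring
          _ ≤ 1 / L * (T * N) := by
              apply mul_le_mul_of_nonneg_left _ (by positivity)
              nlinarith
      have h11 : N / L ≤ 1 / L * (T * N) := by
        calc N / L = 1 / L * N := by ring
          _ ≤ 1 / L * (T * N) := by
              apply mul_le_mul_of_nonneg_left _ (by positivity)
              nlinarith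
      have h12 : 4 / L * T * N = 4 * (1 / L * (T * N)) := by ring
      have h13 : 1 / L * (T * N) ≤ 1 / L * (5 / 4 * (sing (d * s m) * N)) := by
        apply mul_le_mul_of_nonneg_left _ (by positivity)
        have : T ≤ 5 / 4 * sing (d * s m) := by linarith
        nlinarith
      have h14 : 20 / L * (sing (d * s m) * N) = 16 * (1 / L * (5 / 4 * (sing (d * s m) * N))) := by ring
      have h15 : 0 ≤ 1 / L * (5 / 4 * (sing (d * s m) * N)) := by
        have : 0 ≤ 1 / L * (T * N) := by positivity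
        linarith
      linarith
    have h16 := h3 N (by omega) d (s m) hd hdL hsm.2 (sing (d * s m) * N) hM key
    have e3 : sing (d * s m) * (N / L ^ 2) = sing (d * s m) * N / L ^ 2 := by ring
    rw [e3]
    exact h16

end Pool.Agent.H560R3.GB
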