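import Mathlib
import Pool.Agent.H560R3.GB.AP3
import Pool.Agent.H560R3.GB.Rob

set_option autoImplicit false
set_option maxHeartbeats 4000000

/-! Differences of two primes which avoid a given set, for almost all members of a family of nearly
minimal additive energy. -/

namespace Pool.Agent.H560R3.GB

open Finset Pool.Agent.H373R2.T7
open ArithmeticFunction (vonMangoldt)

/-- The number of primes `q ≤ N` with `q + d` prime such that neither `q` nor `q + d` is in `D`. -/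
def dD (D : Finset ℕ) (d N : ℕ) : ℕ :=
  ((Icc 1 N).filter (fun q : ℕ => q.Prime ∧ (q + d).Prime ∧ q ∉ D ∧ q + d ∉ D)).card

def r1 (D : Finset ℕ) (d N : ℕ) : ℕ := ((Icc 1 N).filter (fun q : ℕ => q ∈ D ∧ (q + d).Prime)).card

def r2 (D : Finset ℕ) (d N : ℕ) : ℕ := ((Icc 1 N).filter (fun q : ℕ => q.Prime ∧ q + d ∈ D)).card

lemma dD_cnt (D : Finset ℕ) (d N : ℕ) : dD D d N ≤ cnt 1 d N ∧ cnt 1 d N ≤ dD D d N + (r1 D d N + r2 D d N) := by
  classical
  have hc : cnt 1 d N = ((Icc 1 N).filter (fun q : ℕ => q.Prime ∧ (q + d).Prime)).card := by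
    unfold cnt
    congr 1
    apply filter_congr
    intro q _
    rw [mul_one, add_comm d q]
  rw [hc]
  constructor
  · unfold dD
    apply card_le_card
    intro q hq
    rw [mem_filter] at hq ⊢
    exact ⟨hq.1, hq.2.1, hq.2.2.1⟩
  · have hsub : (Icc 1 N).filter (fun q : ℕ => q.Prime ∧ (q + d).Prime) ⊆
        ((Icc 1 N).filter (fun q : ℕ => q.Prime ∧ (q + d).Prime ∧ q ∉ D ∧ q + d ∉ D)) ∪
        (((Icc 1 N).filter (fun q : ℕ => q ∈ D ∧ (q + d).Prime)) ∪
        ((Icc 1 N).filter (fun q : ℕ => q.Prime ∧ q + d ∈ D))) := by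
      intro q hq
      rw [mem_union, mem_union, mem_filter, mem_filter, mem_filter]
      rw [mem_filter] at hq
      by_cases h1 : q ∈ D
      · exact Or.inr (Or.inl ⟨hq.1, h1, hq.2.2⟩)
      · by_cases h2 : q + d ∈ D
        · exact Or.inr (Or.inr ⟨hq.1, hq.2.1, h2⟩)
        · exact Or.inl ⟨hq.1, hq.2.1, hq.2.2, h1, h2⟩
    refine (card_le_card hsub).trans ((card_union_le _ _).trans ?_)
    exact Nat.add_le_add_left (card_union_le _ _) _

/-- the indicator function of `D` -/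
noncomputable def iD (D : Finset ℕ) (a : ℕ) : ℝ := by
  classical exact if a ∈ D then 1 else 0

lemma iD_nonneg (D : Finset ℕ) (a : ℕ) : 0 ≤ iD D a := by
  unfold iD
  split_ifs <;> norm_num

lemma iD_abs (D : Finset ℕ) (a : ℕ) : |iD D a| ≤ 1 := by
  unfold iD
  split_ifs <;> norm_num

lemma iD_one (D : Finset ℕ) (a : ℕ) (h : a ∈ D) : iD D a = 1 := by
  unfold iD
  rw [if_pos h]

lemma small_count (N : ℕ) (T : ℝ) (hT : 1 ≤ T) : ∑ n ∈ Icc 1 N, (if (n : ℝ) ≤ T then (1 : ℝ) else 0) ≤ T := by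
  rw [← sum_filter, sum_const, nsmul_eq_mul, mul_one]
  have h3 : ((Icc 1 N).filter (fun n : ℕ => (n : ℝ) ≤ T)).card ≤ ⌊T⌋₊ := by
    calc _ ≤ (Icc 1 ⌊T⌋₊).card := by
          apply card_le_card
          intro n hn
          rw [mem_filter, mem_Icc] at hn
          rw [mem_Icc]
          exact ⟨hn.1.1, Nat.le_floor hn.2⟩
      _ = _ := by simp
  have h4 : (((Icc 1 N).filter (fun n : ℕ => (n : ℝ) ≤ T)).card : ℝ) ≤ ⌊T⌋₊ := by exact_mod_cast h3
  exact h4.trans (Nat.floor_le (by linarith))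

lemma r1_le (D : Finset ℕ) (d N : ℕ) (T l : ℝ) (hT : 1 ≤ T) (hl : 0 ≤ l) (hlT : l ≤ Real.log T) :
    l * r1 D d N ≤ ∑ n ∈ Icc 1 N, iD D n * lamI ((n : ℤ) + (d : ℤ)) + l * T := by
  classical
  have h0 : (r1 D d N : ℝ) = ∑ n ∈ Icc 1 N, if n ∈ D ∧ (n + d).Prime then (1 : ℝ) else 0 := by
    unfold r1
    rw [card_filter]
    push_cast
    rfl
  have h1 : ∀ n ∈ Icc 1 N, l * (if n ∈ D ∧ (n + d).Prime then (1 : ℝ) else 0) ≤
      iD D n * lamI ((n : ℤ) + (d : ℤ)) + l * (if (n : ℝ) ≤ T then (1 : ℝ) else 0) := by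
    intro n hn
    rw [mem_Icc] at hn
    have i1 : 0 ≤ iD D n * lamI ((n : ℤ) + (d : ℤ)) := mul_nonneg (iD_nonneg _ _) (lamI_nonneg _)
    have i2 : 0 ≤ l * (if (n : ℝ) ≤ T then (1 : ℝ) else 0) := mul_nonneg hl (by split_ifs <;> norm_num)
    by_cases h : n ∈ D ∧ (n + d).Prime
    · rw [if_pos h, mul_one]
      by_cases t : (n : ℝ) ≤ T
      · rw [if_pos t, mul_one]
        linarith
      · push Not at t
        have e : lamI ((n : ℤ) + (d : ℤ)) = Real.log ((n + d : ℕ) : ℝ) := by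
          unfold lamI
          rw [if_pos (by omega)]
          have : ((n : ℤ) + (d : ℤ)).toNat = n + d := by omega
          rw [this, ArithmeticFunction.vonMangoldt_apply_prime h.2]
        rw [iD_one D n h.1, one_mul, e]
        have h2 : Real.log T ≤ Real.log ((n + d : ℕ) : ℝ) := by
          apply Real.log_le_log (by linarith)
          push_cast
          have : (0 : ℝ) ≤ d := Nat.cast_nonneg _
          linarith
        linarith
    · rw [if_neg h, mul_zero]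
      linarith
  have h2 := sum_le_sum h1
  rw [← mul_sum, ← h0, sum_add_distrib, ← mul_sum] at h2
  have h3 := mul_le_mul_of_nonneg_left (small_count N T hT) hl
  linarith

lemma r2_le (D : Finset ℕ) (d N M : ℕ) (hM : N + d ≤ M) (T l : ℝ) (hT : 1 ≤ T) (hl : 0 ≤ l) (hlT : l ≤ Real.log T) :
    l * r2 D d N ≤ ∑ u ∈ Icc 1 M, iD D u * lamI ((u : ℤ) + (-(d : ℤ))) + l * T := by
  classical
  have h0 : (r2 D d N : ℝ) = ∑ n ∈ Icc 1 N, if n.Prime ∧ n + d ∈ D then (1 : ℝ) else 0 := by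
    unfold r2
    rw [card_filter]
    push_cast
    rfl
  have h1 : ∀ n ∈ Icc 1 N, l * (if n.Prime ∧ n + d ∈ D then (1 : ℝ) else 0) ≤
      iD D (n + d) * lamI (((n + d : ℕ) : ℤ) + (-(d : ℤ))) + l * (if (n : ℝ) ≤ T then (1 : ℝ) else 0) := by
    intro n hn
    rw [mem_Icc] at hn
    have i1 : 0 ≤ iD D (n + d) * lamI (((n + d : ℕ) : ℤ) + (-(d : ℤ))) := mul_nonneg (iD_nonneg _ _) (lamI_nonneg _)
    have i2 : 0 ≤ l * (if (n : ℝ) ≤ T then (1 : ℝ) else 0) := mul_nonneg hl (by split_ifs <;> norm_num)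
    by_cases h : n.Prime ∧ n + d ∈ D
    · rw [if_pos h, mul_one]
      by_cases t : (n : ℝ) ≤ T
      · rw [if_pos t, mul_one]
        linarith
      · push Not at t
        have e : lamI (((n + d : ℕ) : ℤ) + (-(d : ℤ))) = Real.log n := by
          unfold lamI
          rw [if_pos (by omega)]
          have : (((n + d : ℕ) : ℤ) + (-(d : ℤ))).toNat = n := by omega
          rw [this, ArithmeticFunction.vonMangoldt_apply_prime h.1]
        rw [iD_one D _ h.2, one_mul, e]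
        have h2 : Real.log T ≤ Real.log n := Real.log_le_log (by linarith) t.le
        linarith
    · rw [if_neg h, mul_zero]
      linarith
  have h2 := sum_le_sum h1
  rw [← mul_sum, ← h0, sum_add_distrib, ← mul_sum] at h2
  have h3 := mul_le_mul_of_nonneg_left (small_count N T hT) hl
  have h4 : ∑ n ∈ Icc 1 N, iD D (n + d) * lamI (((n + d : ℕ) : ℤ) + (-(d : ℤ))) ≤
      ∑ u ∈ Icc 1 M, iD D u * lamI ((u : ℤ) + (-(d : ℤ))) := by
    rw [← sum_image (f := fun u : ℕ => iD D u * lamI ((u : ℤ) + (-(d : ℤ)))) (g := fun n => n + d) (s := Icc 1 N)]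
    · apply sum_le_sum_of_subset_of_nonneg
      · intro u hu
        rw [mem_image] at hu
        obtain ⟨n, hn, rfl⟩ := hu
        rw [mem_Icc] at hn ⊢
        omega
      · intro u _ _
        exact mul_nonneg (iD_nonneg _ _) (lamI_nonneg _)
    · intro n _ n' _ hnn'
      simp only at hnn'
      omega
  linarith

lemma model_le (D : Finset ℕ) (z A : ℕ) (b : ℤ) : ∑ n ∈ Icc 1 A, iD D n * lamzI z ((n : ℤ) + b) ≤ (Vz z)⁻¹ * D.card := by
  classical
  have hV : 0 < (Vz z)⁻¹ := inv_pos.2 (Vz_pos z)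
  calc ∑ n ∈ Icc 1 A, iD D n * lamzI z ((n : ℤ) + b) ≤
        ∑ n ∈ Icc 1 A, (if n ∈ D then (Vz z)⁻¹ else 0) := by
        apply sum_le_sum
        intro n _
        unfold iD
        split_ifs
        · rw [one_mul]
          exact lamzI_le z _
        · rw [zero_mul]
    _ = ((Icc 1 A).filter (fun a => a ∈ D)).card * (Vz z)⁻¹ := by
        rw [← sum_filter, sum_const, nsmul_eq_mul]
    _ ≤ D.card * (Vz z)⁻¹ := by
        apply mul_le_mul_of_nonneg_right _ hV.le
        exact_mod_cast card_le_card (fun a ha => (mem_filter.1 ha).2)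
    _ = _ := mul_comm _ _

lemma energy_neg (p x : ℕ) (s : ℕ → ℤ) : Pool.Agent.H373R2.T7.energy p x (fun m => -s m) = Pool.Agent.H373R2.T7.energy p x s := by
  unfold Pool.Agent.H373R2.T7.energy
  congr 1
  apply filter_congr
  intro q _
  rw [sum_neg_distrib, sum_neg_distrib, neg_inj]

/-- Chebyshev's inequality -/
lemma cheb (x : ℕ) (W : ℕ → ℝ) (N L : ℝ) (j U : ℕ) (hN : 0 < N) (hL : 0 < L) (hW : ∀ m, 0 ≤ W m)
    (h : ∑ m ∈ Icc 1 x, W m ≤ N * x / L ^ (j + U)) :
    (((Icc 1 x).filter (fun m => N / L ^ j < W m)).card : ℝ) ≤ x / L ^ U := by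
  set T := (Icc 1 x).filter (fun m => N / L ^ j < W m) with hT
  have hτ0 : 0 < N / L ^ j := by positivity
  have h5 : (T.card : ℝ) * (N / L ^ j) ≤ ∑ m ∈ Icc 1 x, W m := by
    calc (T.card : ℝ) * (N / L ^ j) = ∑ _m ∈ T, N / L ^ j := by rw [sum_const, nsmul_eq_mul]
      _ ≤ ∑ m ∈ T, W m := sum_le_sum fun m hm => (mem_filter.1 hm).2.le
      _ ≤ _ := sum_le_sum_of_subset_of_nonneg (filter_subset _ _) fun m _ _ => hW m
  have h6 := h5.trans h
  rw [← le_div_iff₀ hτ0] at h6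
  refine h6.trans (le_of_eq ?_)
  rw [pow_add L j U]
  field_simp

theorem diff_main (h B C U : ℕ) (ε : ℝ) (hε : 0 < ε) :
    ∃ c : ℝ, 0 < c ∧ ∃ N₀ : ℕ, ∀ N : ℕ, N₀ ≤ N → ∀ D : Finset ℕ,
      (D.card : ℝ) ≤ c * (N / (Real.log N * Real.log (Real.log N))) → ∀ (x : ℕ) (s : ℕ → ℕ),
      (∀ m ∈ Icc 1 x, Even (s m) ∧ 1 ≤ s m ∧ s m ≤ B * N) →
      (Pool.Agent.H373R2.T7.energy h x (fun m => (s m : ℤ)) : ℝ) * N ≤ Real.log N ^ C * (x : ℝ) ^ (2 * h) →
      ∃ S : Finset ℕ, (S.card : ℝ) ≤ x / Real.log N ^ U ∧ ∀ m ∈ Icc 1 x, m ∉ S → 1 / 2 ≤ sing (s m) ∧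
        |(dD D (s m) N : ℝ) - sing (s m) * (N / Real.log N ^ 2)| ≤ ε * (sing (s m) * (N / Real.log N ^ 2)) := by
  classical
  obtain ⟨n0, h0⟩ := ap_main h C B 0 (U + 1) (ε / 2) (by positivity)
  obtain ⟨B0, hB0⟩ := lam_e h (B + 1) C (2 + (U + 1))
  obtain ⟨C₀, hC₀, hVz⟩ := Vz_log
  set B1 : ℕ := max B0 3 with hB1
  obtain ⟨n1, h1⟩ := hB0 (B1 + 1)
  set A : ℝ := C₀ * (B1 + 1) with hA
  have hA0 : 0 < A := by positivity
  set η : ℝ := ε / 48 with hη
  have hη0 : 0 < η := by positivity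
  obtain ⟨n3, h3⟩ := ev_L' (16 + 1 / η + B)
  obtain ⟨n4, h4⟩ := ev_log' 2 (1 / η)
  refine ⟨η / A, by positivity, n0 + n1 + n3 + n4 + 3, fun N hN D hD x s hs hE => ?_⟩
  have hL := h3 N (by omega)
  have hLs := h4 N (by omega)
  have hN3 : (3 : ℝ) ≤ N := by exact_mod_cast (by omega : 3 ≤ N)
  have hN0 : (0 : ℝ) < N := by linarith
  set L := Real.log (N : ℝ) with hLd
  have q1 : 0 < 1 / η := by positivity
  have hBr : (0 : ℝ) ≤ B := Nat.cast_nonneg _
  have hL16 : 16 ≤ L := by linarith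
  have hL1 : 1 ≤ L := by linarith
  have hL0 : 0 < L := by linarith
  have hs0 : 0 < √(N : ℝ) := Real.sqrt_pos.2 hN0
  have hss : √(N : ℝ) * √(N : ℝ) = N := Real.mul_self_sqrt hN0.le
  have hs1 : 1 ≤ √(N : ℝ) := by
    rw [Real.one_le_sqrt]
    linarith
  obtain ⟨S1, hS1, hgood⟩ := h0 N (by omega) x s (fun m hm => (hs m hm).2) hE
  obtain ⟨z, hz⟩ : ∃ z, z = ⌈L ^ B1⌉₊ := ⟨_, rfl⟩
  have hz1 : L ^ B1 ≤ z := by rw [hz]; exact Nat.le_ceil _
  have hz2 : (z : ℝ) ≤ L ^ (B1 + 1) := by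
    have h5 : (z : ℝ) < L ^ B1 + 1 := by rw [hz]; exact Nat.ceil_lt_add_one (by positivity)
    have h6 : 1 ≤ L ^ B1 := one_le_pow₀ hL1
    calc (z : ℝ) ≤ L ^ B1 + 1 := h5.le
      _ ≤ L ^ B1 * 2 := by linarith
      _ ≤ L ^ B1 * L := mul_le_mul_of_nonneg_left (by linarith) (by positivity)
      _ = L ^ (B1 + 1) := by rw [pow_succ]
  have hzB0 : L ^ B0 ≤ z := (pow_le_pow_right₀ hL1 (le_max_left _ _)).trans hz1
  have hz33 : L ^ 3 ≤ z := (pow_le_pow_right₀ hL1 (le_max_right _ _)).trans hz1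
  have hz3 : 3 ≤ z := by
    have h5 : L ≤ L ^ 3 := le_self_pow₀ hL1 (by norm_num)
    have : (3 : ℝ) ≤ z := by linarith
    exact_mod_cast this
  have hz3r : (3 : ℝ) ≤ z := by exact_mod_cast hz3
  set M : ℕ := (B + 1) * N with hM
  have hsB : ∀ m ∈ Icc 1 x, s m ≤ B * N := fun m hm => (hs m hm).2.2
  have hBM : B * N ≤ M := Nat.mul_le_mul_right _ (by omega)
  -- the two moments
  have m1 := l1_real N x (fun n m => lamI ((n : ℤ) + (s m : ℤ)) - lamzI z ((n : ℤ) + (s m : ℤ)))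
    (N * x / L ^ (2 + (U + 1))) 1 one_pos
    (h1 N (by omega) x (fun m => (s m : ℤ)) (fun m hm => by
      rw [abs_of_nonneg (Int.natCast_nonneg _)]
      exact_mod_cast (hsB m hm).trans hBM) hE N (Nat.le_mul_of_pos_left _ (by omega)) z hzB0 hz2)
    (fun n => iD D n) (fun n _ => iD_abs D n)
  have m2 := l1_real M x (fun n m => lamI ((n : ℤ) + (-(s m : ℤ))) - lamzI z ((n : ℤ) + (-(s m : ℤ))))
    (N * x / L ^ (2 + (U + 1))) 1 one_pos
    (h1 N (by omega) x (fun m => -(s m : ℤ)) (fun m hm => by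
      rw [abs_neg, abs_of_nonneg (Int.natCast_nonneg _)]
      exact_mod_cast (hsB m hm).trans hBM) (by
      rw [energy_neg h x (fun m => (s m : ℤ))]
      exact hE) M le_rfl z hzB0 hz2)
    (fun n => iD D n) (fun n _ => iD_abs D n)
  rw [one_mul] at m1 m2
  set W1 : ℕ → ℝ := fun m => |∑ n ∈ Icc 1 N, iD D n * (lamI ((n : ℤ) + (s m : ℤ)) - lamzI z ((n : ℤ) + (s m : ℤ)))| with hW1
  set W2 : ℕ → ℝ := fun m => |∑ n ∈ Icc 1 M, iD D n * (lamI ((n : ℤ) + (-(s m : ℤ))) - lamzI z ((n : ℤ) + (-(s m : ℤ))))| with hW2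
  have c1 := cheb x W1 N L 2 (U + 1) hN0 hL0 (fun m => abs_nonneg _) m1
  have c2 := cheb x W2 N L 2 (U + 1) hN0 hL0 (fun m => abs_nonneg _) m2
  set S2 := (Icc 1 x).filter (fun m => (N : ℝ) / L ^ 2 < W1 m) with hS2
  set S3 := (Icc 1 x).filter (fun m => (N : ℝ) / L ^ 2 < W2 m) with hS3
  have hxr : (0 : ℝ) ≤ x := Nat.cast_nonneg _
  have hlogL : 0 < Real.log L := Real.log_pos (by linarith)
  have hVD : (Vz z)⁻¹ * D.card ≤ η * (N / L) := by
    have e1 : (Vz z)⁻¹ ≤ A * Real.log L := by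
      refine (hVz z hz3).trans ?_
      have e2 : Real.log z ≤ (B1 + 1) * Real.log L := by
        have := Real.log_le_log (by linarith) hz2
        rw [Real.log_pow] at this
        push_cast at this
        exact this
      calc C₀ * Real.log z ≤ C₀ * ((B1 + 1) * Real.log L) := mul_le_mul_of_nonneg_left e2 hC₀.le
        _ = _ := by rw [hA]; ring
    calc (Vz z)⁻¹ * D.card ≤ (A * Real.log L) * (η / A * (N / (L * Real.log L))) := by
          apply mul_le_mul e1 hD (Nat.cast_nonneg _) (by positivity)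
      _ = η * (N / L) := by field_simp
  refine ⟨S1 ∪ (S2 ∪ S3), ?_, ?_⟩
  · have h5 : ((S1 ∪ (S2 ∪ S3)).card : ℝ) ≤ S1.card + (S2.card + S3.card) := by
      exact_mod_cast (card_union_le _ _).trans (Nat.add_le_add_left (card_union_le _ _) _)
    calc ((S1 ∪ (S2 ∪ S3)).card : ℝ) ≤ x / L ^ (U + 1) + (x / L ^ (U + 1) + x / L ^ (U + 1)) := by linarith
      _ = (3 / L) * (x / L ^ U) := by rw [pow_succ]; field_simp; ring
      _ ≤ 1 * (x / L ^ U) := by
          apply mul_le_mul_of_nonneg_right _ (by positivity)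
          rw [div_le_one hL0]
          linarith
      _ = _ := one_mul _
  · intro m hm hmS
    rw [mem_union, mem_union, not_or, not_or] at hmS
    obtain ⟨hm1, hm2, hm3⟩ := hmS
    have g := hgood m hm hm1 1 le_rfl (by simp) (Nat.coprime_one_right _) (by rw [one_mul]; exact (hs m hm).1)
    rw [one_mul] at g
    have w1 : W1 m ≤ N / L ^ 2 := by
      by_contra hcon
      exact hm2 (mem_filter.2 ⟨hm, lt_of_not_ge hcon⟩)
    have w2 : W2 m ≤ N / L ^ 2 := by
      by_contra hcon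
      exact hm3 (mem_filter.2 ⟨hm, lt_of_not_ge hcon⟩)
    set d := s m with hd
    have hsplit : ∀ (K : ℕ) (b : ℤ), ∑ n ∈ Icc 1 K, iD D n * lamI ((n : ℤ) + b) =
        ∑ n ∈ Icc 1 K, iD D n * (lamI ((n : ℤ) + b) - lamzI z ((n : ℤ) + b)) + ∑ n ∈ Icc 1 K, iD D n * lamzI z ((n : ℤ) + b) := by
      intro K b
      rw [← sum_add_distrib]
      apply sum_congr rfl
      intro n _
      ring
    have hlogT : L / 2 ≤ Real.log √(N : ℝ) := by rw [Real.log_sqrt hN0.le]
    have p1 := r1_le D d N √(N : ℝ) (L / 2) hs1 (by positivity) hlogT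
    have p2 := r2_le D d N M (by
      have := hsB m hm
      rw [hM, add_mul, one_mul]
      omega) √(N : ℝ) (L / 2) hs1 (by positivity) hlogT
    rw [hsplit] at p1 p2
    have v1 := le_abs_self (∑ n ∈ Icc 1 N, iD D n * (lamI ((n : ℤ) + (d : ℤ)) - lamzI z ((n : ℤ) + (d : ℤ))))
    have v2 := le_abs_self (∑ n ∈ Icc 1 M, iD D n * (lamI ((n : ℤ) + (-(d : ℤ))) - lamzI z ((n : ℤ) + (-(d : ℤ)))))
    have u1 := model_le D z N (d : ℤ)
    have u2 := model_le D z M (-(d : ℤ))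
    have w1' : |∑ n ∈ Icc 1 N, iD D n * (lamI ((n : ℤ) + (d : ℤ)) - lamzI z ((n : ℤ) + (d : ℤ)))| ≤ N / L ^ 2 := w1
    have w2' : |∑ n ∈ Icc 1 M, iD D n * (lamI ((n : ℤ) + (-(d : ℤ))) - lamzI z ((n : ℤ) + (-(d : ℤ))))| ≤ N / L ^ 2 := w2
    have t1 : (N : ℝ) / L ^ 2 ≤ η * (N / L) := by
      have h5 : 1 / L ≤ η := by
        rw [div_le_iff₀ hL0]
        have h6 : 1 / η ≤ L := by linarith
        rw [div_le_iff₀ hη0] at h6
        linarith
      calc (N : ℝ) / L ^ 2 = (1 / L) * (N / L) := by field_simp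
        _ ≤ η * (N / L) := mul_le_mul_of_nonneg_right h5 (by positivity)
    have t2 : L / 2 * √(N : ℝ) ≤ η * (N / L) := by
      have h5 : L ^ 2 ≤ η * √(N : ℝ) := by
        have h6 : 1 / η * L ^ 2 ≤ √(N : ℝ) := hLs
        rw [one_div, inv_mul_le_iff₀ hη0] at h6
        exact h6
      have h7 : L * √(N : ℝ) ≤ η * (N / L) := by
        have h8 : L * √(N : ℝ) = L ^ 2 * √(N : ℝ) / L := by field_simp
        rw [h8]
        calc L ^ 2 * √(N : ℝ) / L ≤ η * √(N : ℝ) * √(N : ℝ) / L := by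
              apply div_le_div_of_nonneg_right _ hL0.le
              exact mul_le_mul_of_nonneg_right h5 hs0.le
          _ = η * (N / L) := by rw [mul_assoc, hss]; ring
      have : 0 ≤ L * √(N : ℝ) := by positivity
      linarith
    have z1 : L / 2 * r1 D d N ≤ 3 * (η * (N / L)) := by linarith
    have z2 : L / 2 * r2 D d N ≤ 3 * (η * (N / L)) := by linarith
    have z3 : (r1 D d N : ℝ) + r2 D d N ≤ 12 * η * (N / L ^ 2) := by
      have h5 : L / 2 * ((r1 D d N : ℝ) + r2 D d N) ≤ L / 2 * (12 * η * (N / L ^ 2)) := by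
        have h6 : L / 2 * (12 * η * (N / L ^ 2)) = 6 * (η * (N / L)) := by field_simp; ring
        rw [h6]
        linarith
      exact le_of_mul_le_mul_left h5 (by positivity)
    -- the lower bound for the singular series
    have hsing : 1 / 2 ≤ sing d := by
      have hd1 : 1 ≤ d := (hs m hm).2.1
      obtain ⟨y1, y2⟩ := sing_close z d (2 * L) (hs m hm).1 hd1 (by
        have h8 : (d : ℝ) ≤ B * N := by exact_mod_cast hsB m hm
        have h9 : (d : ℝ) ≤ N * N := by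
          refine h8.trans (mul_le_mul_of_nonneg_right ?_ hN0.le)
          have h10 : (B : ℝ) ≤ L := by linarith
          have h11 : L ≤ N := by
            have := Real.log_le_sub_one_of_pos hN0
            linarith
          linarith
        have h12 := Real.log_le_log (by exact_mod_cast hd1) h9
        rw [Real.log_mul hN0.ne' hN0.ne', ← hLd] at h12
        linarith) (by linarith) (by
        refine le_trans ?_ hz33
        have : (2 * L) ^ 2 = 4 * L ^ 2 := by ring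
        rw [this, pow_succ L 2]
        nlinarith [sq_nonneg L])
      have h5 := (abs_le.1 y1).1
      have h6 : 8 / (2 * L) ≤ 1 / 2 := by
        rw [div_le_div_iff₀ (by positivity) (by norm_num)]
        linarith
      have h7 : 8 / (2 * L) * Tz z d ≤ 1 / 2 * Tz z d := mul_le_mul_of_nonneg_right h6 (by linarith)
      linarith
    refine ⟨hsing, ?_⟩
    set M0 : ℝ := sing d * (N / L ^ 2) with hM0
    have hM0' : 1 / 2 * (N / L ^ 2) ≤ M0 := mul_le_mul_of_nonneg_right hsing (by positivity)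
    have z4 : (r1 D d N : ℝ) + r2 D d N ≤ ε / 2 * M0 := by
      have h5 : 12 * η * (N / L ^ 2) = ε / 2 * (1 / 2 * (N / L ^ 2)) := by rw [hη]; ring
      rw [h5] at z3
      exact z3.trans (mul_le_mul_of_nonneg_left hM0' (by positivity))
    obtain ⟨k1, k2⟩ := dD_cnt D d N
    have k1' : (dD D d N : ℝ) ≤ cnt 1 d N := by exact_mod_cast k1
    have k2' : (cnt 1 d N : ℝ) ≤ dD D d N + (r1 D d N + r2 D d N) := by exact_mod_cast k2
    obtain ⟨g1, g2⟩ := abs_le.1 g
    have hr : (0 : ℝ) ≤ ε / 2 * M0 := by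
      have : 0 ≤ M0 := le_trans (by positivity) hM0'
      positivity
    rw [abs_le]
    constructor <;> linarith

end Pool.Agent.H560R3.GB
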