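import Mathlib
import Pool.Agent.H560R3.GB.Rob

set_option autoImplicit false
set_option maxHeartbeats 4000000

/-! The Hardy-Littlewood formula after the deletion of few primes, main theorem. -/

namespace Pool.Agent.H560R3.GB

open Finset Pool.Agent.H373R2.T7
open ArithmeticFunction (vonMangoldt)

lemma HL_low (n N : ℕ) (κ L : ℝ) (hκ : 0 < κ) (hev : Even n) (hn1 : κ * N ≤ n) (hn2 : n ≤ N)
    (hn3 : 3 ≤ n) (hL : L = Real.log N) (hL16 : 16 ≤ L) : 1 / 2 * (κ * N / L ^ 2) ≤ HL n := by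
  have hnr : (3 : ℝ) ≤ n := by exact_mod_cast hn3
  have hnN : (n : ℝ) ≤ N := by exact_mod_cast hn2
  have hlog : Real.log n ≤ L := by rw [hL]; exact Real.log_le_log (by linarith) hnN
  have hlog0 : 0 < Real.log n := Real.log_pos (by linarith)
  obtain ⟨h1, h2⟩ := sing_close ⌈L ^ 2⌉₊ n L hev (by omega) hlog (by linarith) (Nat.le_ceil _)
  have hs : 1 / 2 ≤ sing n := by
    have h3 := (abs_le.1 h1).1
    have h4 : 8 / L ≤ 1 / 2 := by
      rw [div_le_div_iff₀ (by linarith) (by norm_num)]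
      linarith
    have h5 : 8 / L * Tz ⌈L ^ 2⌉₊ n ≤ 1 / 2 * Tz ⌈L ^ 2⌉₊ n := mul_le_mul_of_nonneg_right h4 (by linarith)
    linarith
  unfold HL
  have h6 : κ * N / L ^ 2 ≤ n / Real.log n ^ 2 := by
    apply div_le_div₀ (by linarith) hn1 (by positivity)
    exact pow_le_pow_left₀ hlog0.le hlog _
  have h7 : 0 ≤ κ * N / L ^ 2 := by positivity
  exact mul_le_mul hs h6 h7 (by linarith)

theorem mainD (h C U : ℕ) (hh : 1 ≤ h) (ε κ : ℝ) (hε : 0 < ε) (hκ : 0 < κ) :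
    ∃ c : ℝ, 0 < c ∧ ∃ N₀ : ℕ, ∀ N : ℕ, N₀ ≤ N → ∀ D : Finset ℕ, (∀ p ∈ D, p.Prime) →
      (D.card : ℝ) ≤ c * (N / (Real.log N * Real.log (Real.log N))) → ∀ (x : ℕ) (s : ℕ → ℕ),
      (∀ m ∈ Icc 1 x, Even (s m) ∧ κ * N ≤ s m ∧ s m ≤ N) →
      (Pool.Agent.H373R2.T7.energy h x (fun m => (s m : ℤ)) : ℝ) * N ≤ Real.log N ^ C * (x : ℝ) ^ (2 * h) →
      ∃ S : Finset ℕ, (S.card : ℝ) ≤ x / Real.log N ^ U ∧ ∀ m ∈ Icc 1 x, m ∉ S →
        |(gD D (s m) : ℝ) - HL (s m)| ≤ ε * HL (s m) := by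
  classical
  set ε' : ℝ := min ε 1 with hε'
  have hε'0 : 0 < ε' := lt_min hε one_pos
  have hε'1 : ε' ≤ 1 := min_le_right _ _
  obtain ⟨n0, h0⟩ := main h C (U + 1) hh (ε' / 4) (by positivity)
  obtain ⟨B0, hB0⟩ := gold_w h C (3 + (U + 1))
  obtain ⟨C₀, hC₀, hVz⟩ := Vz_log
  set B1 : ℕ := max B0 2 with hB1
  obtain ⟨n1, h1⟩ := hB0 (B1 + 1)
  set A : ℝ := C₀ * (B1 + 1) with hA
  have hA0 : 0 < A := by positivity
  set η : ℝ := ε' * κ / 64 with hη
  have hη0 : 0 < η := by positivity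
  obtain ⟨n3, h3⟩ := ev_L' (16 + 2 / η)
  obtain ⟨n4, h4⟩ := ev_log' 2 (2 / η)
  obtain ⟨n5, h5⟩ := ev_log' 0 (3 / κ + 3)
  refine ⟨η / A, by positivity, n0 + n1 + n3 + n4 + n5 + 3, fun N hN D hDp hD x s hs hE => ?_⟩
  have hL := h3 N (by omega)
  have hLs := h4 N (by omega)
  have hNs := h5 N (by omega)
  have hN3 : (3 : ℝ) ≤ N := by exact_mod_cast (by omega : 3 ≤ N)
  have hN0 : (0 : ℝ) < N := by linarith
  rw [pow_zero, mul_one] at hNs
  set L := Real.log (N : ℝ) with hLd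
  have q1 : 0 < 2 / η := by positivity
  have q2 : 0 < 3 / κ := by positivity
  have hL16 : 16 ≤ L := by linarith
  have hL1 : 1 ≤ L := by linarith
  have hL0 : 0 < L := by linarith
  have hs0 : 0 < √(N : ℝ) := Real.sqrt_pos.2 hN0
  have hss : √(N : ℝ) * √(N : ℝ) = N := Real.mul_self_sqrt hN0.le
  have hs1 : 3 ≤ √(N : ℝ) := by linarith
  have hκN : 3 ≤ κ * N := by
    have e1 : 3 / κ ≤ √(N : ℝ) := by linarith
    have e2 : √(N : ℝ) ≤ N := by nlinarith
    have e3 : 3 / κ ≤ N := e1.trans e2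
    rw [div_le_iff₀ hκ] at e3
    linarith
  have hmem : ∀ m ∈ Icc 1 x, 3 ≤ s m := by
    intro m hm
    have := (hs m hm).2.1
    have e : (3 : ℝ) ≤ s m := hκN.trans this
    exact_mod_cast e
  obtain ⟨S1, hS1, hgood⟩ := h0 N (by omega) x s (fun m hm => ⟨(hs m hm).1, by have := hmem m hm; omega, (hs m hm).2.2⟩) hE
  obtain ⟨z, hz⟩ : ∃ z, z = ⌈L ^ B1⌉₊ := ⟨_, rfl⟩
  have hz1 : L ^ B1 ≤ z := by rw [hz]; exact Nat.le_ceil _
  have hz2 : (z : ℝ) ≤ L ^ (B1 + 1) := by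
    have h5 : (z : ℝ) < L ^ B1 + 1 := by rw [hz]; exact Nat.ceil_lt_add_one (by positivity)
    have h6 : 1 ≤ L ^ B1 := one_le_pow₀ hL1
    calc (z : ℝ) ≤ L ^ B1 + 1 := h5.le
      _ ≤ L ^ B1 * 2 := by linarith
      _ ≤ L ^ B1 * L := mul_le_mul_of_nonneg_left (by linarith) (by positivity)
      _ = L ^ (B1 + 1) := by rw [pow_succ]
  have hzB0 : L ^ B0 ≤ z := (pow_le_pow_right₀ hL1 (le_max_left _ _)).trans hz1
  have hz22 : L ^ 2 ≤ z := (pow_le_pow_right₀ hL1 (le_max_right _ _)).trans hz1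
  have hz3 : 3 ≤ z := by
    have : (3 : ℝ) ≤ z := by nlinarith
    exact_mod_cast this
  have hz3r : (3 : ℝ) ≤ z := by exact_mod_cast hz3
  have hmom := h1 N (by omega) x s (fun m hm => ⟨by have := hmem m hm; omega, (hs m hm).2.2⟩) hE z hzB0 hz2
    (fun a => if a ∈ D then (1 : ℝ) else 0) (fun a => by split_ifs <;> norm_num)
  have hdiff : ∀ m, ∑ a ∈ Icc 1 N, (if a ∈ D then (1 : ℝ) else 0) * (lamI ((s m : ℤ) - a) - lamzI z ((s m : ℤ) - a)) =
      WD1 D N (s m) - WD2 D z N (s m) := by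
    intro m
    unfold WD1 WD2
    rw [← sum_sub_distrib]
    exact sum_congr rfl fun a _ => mul_sub _ _ _
  simp only [hdiff] at hmom
  set τ : ℝ := N / L ^ 3 with hτ
  have hτ0 : 0 < τ := by positivity
  set S2 : Finset ℕ := (Icc 1 x).filter (fun m => τ < |WD1 D N (s m) - WD2 D z N (s m)|) with hS2
  have hxr : (0 : ℝ) ≤ x := Nat.cast_nonneg _
  have hc2 : (S2.card : ℝ) ≤ x / L ^ (U + 1) := by
    have h5 : (S2.card : ℝ) * τ ≤ ∑ m ∈ Icc 1 x, |WD1 D N (s m) - WD2 D z N (s m)| := by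
      calc (S2.card : ℝ) * τ = ∑ _m ∈ S2, τ := by rw [sum_const, nsmul_eq_mul]
        _ ≤ ∑ m ∈ S2, |WD1 D N (s m) - WD2 D z N (s m)| := sum_le_sum fun m hm => (mem_filter.1 hm).2.le
        _ ≤ _ := sum_le_sum_of_subset_of_nonneg (filter_subset _ _) fun _ _ _ => abs_nonneg _
    have h6 := h5.trans hmom
    rw [← le_div_iff₀ hτ0] at h6
    refine h6.trans (le_of_eq ?_)
    rw [hτ, pow_add L 3 (U + 1)]
    field_simp
  have hlogL : 0 < Real.log L := Real.log_pos (by linarith)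
  have hVD : (Vz z)⁻¹ * D.card ≤ η * (N / L) := by
    have e1 : (Vz z)⁻¹ ≤ A * Real.log L := by
      refine (hVz z hz3).trans ?_
      have e2 : Real.log z ≤ (B1 + 1) * Real.log L := by
        have := Real.log_le_log (by linarith) hz2
        rw [Real.log_pow] at this
        push_cast at this
        exact this
      calc C₀ * Real.log z ≤ C₀ * ((B1 + 1) * Real.log L) := mul_le_mul_of_nonneg_left e2 hC₀.le
        _ = _ := by rw [hA]; ring
    calc (Vz z)⁻¹ * D.card ≤ (A * Real.log L) * (η / A * (N / (L * Real.log L))) := by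
          apply mul_le_mul e1 hD (Nat.cast_nonneg _) (by positivity)
      _ = η * (N / L) := by field_simp
  refine ⟨S1 ∪ S2, ?_, ?_⟩
  · have h5 : ((S1 ∪ S2).card : ℝ) ≤ S1.card + S2.card := by exact_mod_cast card_union_le _ _
    calc ((S1 ∪ S2).card : ℝ) ≤ x / L ^ (U + 1) + x / L ^ (U + 1) := by linarith
      _ = (2 / L) * (x / L ^ U) := by rw [pow_succ]; field_simp; ring
      _ ≤ 1 * (x / L ^ U) := by
          apply mul_le_mul_of_nonneg_right _ (by positivity)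
          rw [div_le_one hL0]
          linarith
      _ = _ := one_mul _
  · intro m hm hmS
    rw [mem_union, not_or] at hmS
    obtain ⟨hm1, hm2⟩ := hmS
    have g1 := hgood m hm hm1
    have h6 : |WD1 D N (s m) - WD2 D z N (s m)| ≤ τ := by
      by_contra hcon
      exact hm2 (mem_filter.2 ⟨hm, lt_of_not_ge hcon⟩)
    obtain ⟨hev, hn1, hn2⟩ := hs m hm
    have hn3 := hmem m hm
    obtain ⟨n, hn⟩ : ∃ n, n = s m := ⟨_, rfl⟩
    rw [← hn] at g1 h6 hev hn1 hn2 hn3 ⊢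
    have hHL := HL_low n N κ L hκ hev hn1 hn2 hn3 hLd hL16
    have hD0 : 0 ∉ D := fun h => Nat.not_prime_zero (hDp 0 h)
    have hr := rD_le D N n hn2 hD0 (√(N : ℝ)) (L / 2) (by linarith) (by linarith) (by rw [Real.log_sqrt hN0.le])
    have hW2 := WD2_le D z N n
    have hW1 : WD1 D N n ≤ η * (N / L) + τ := by
      have := (abs_le.1 h6).2
      linarith
    set r : ℝ := (rD D n : ℝ) with hrd
    set P : ℝ := N / L ^ 2 with hP
    have hP0 : 0 < P := by positivity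
    have e1 : η * (N / L) = L / 2 * (2 * η * P) := by rw [hP]; field_simp
    have e2 : τ ≤ L / 2 * (η * P) := by
      have e3 : τ = P / L := by rw [hτ, hP]; field_simp
      rw [e3, div_le_iff₀ hL0]
      have e4 : 2 ≤ η * (L * L) := by
        have : 2 / η ≤ L * L := by nlinarith
        rw [div_le_iff₀ hη0] at this
        linarith
      calc P = (1 / 2 * P) * 2 := by ring
        _ ≤ (1 / 2 * P) * (η * (L * L)) := mul_le_mul_of_nonneg_left e4 (by positivity)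
        _ = _ := by ring
    have e3 : √(N : ℝ) + 1 ≤ η * P := by
      have e4 : 2 * √(N : ℝ) ≤ η * P := by
        rw [hP, ← mul_div_assoc, le_div_iff₀ (by positivity)]
        have e5 : 2 / η * L ^ 2 * η ≤ √(N : ℝ) * η := mul_le_mul_of_nonneg_right hLs hη0.le
        have e6 : 2 / η * L ^ 2 * η = 2 * L ^ 2 := by field_simp
        calc 2 * √(N : ℝ) * L ^ 2 = √(N : ℝ) * (2 * L ^ 2) := by ring
          _ ≤ √(N : ℝ) * (√(N : ℝ) * η) := mul_le_mul_of_nonneg_left (by linarith) hs0.le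
          _ = η * (√(N : ℝ) * √(N : ℝ)) := by ring
          _ = η * N := by rw [hss]
      linarith
    have hr4 : r ≤ 4 * η * P := by
      have e4 : L / 2 * (√(N : ℝ) + 1) ≤ L / 2 * (η * P) := mul_le_mul_of_nonneg_left e3 (by linarith)
      have e5 : L / 2 * r ≤ L / 2 * (4 * η * P) := by
        have e6 : L / 2 * (4 * η * P) = L / 2 * (2 * η * P) + L / 2 * (η * P) + L / 2 * (η * P) := by ring
        rw [e6]
        linarith
      exact le_of_mul_le_mul_left e5 (by linarith)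
    have hHLP : 1 / 2 * (κ * P) ≤ HL n := by
      refine le_trans (le_of_eq ?_) hHL
      rw [hP]
      ring
    have hr8 : 2 * r ≤ ε' / 4 * HL n := by
      have e4 : ε' / 4 * (1 / 2 * (κ * P)) ≤ ε' / 4 * HL n := mul_le_mul_of_nonneg_left hHLP (by positivity)
      have e5 : ε' / 4 * (1 / 2 * (κ * P)) = 8 * (η * P) := by rw [hη]; ring
      linarith
    obtain ⟨k1, k2⟩ := g_le_gD D n
    have k1' : (gD D n : ℝ) ≤ g n := by exact_mod_cast k1
    have k2' : (g n : ℝ) ≤ gD D n + 2 * r := by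
      rw [hrd]
      exact_mod_cast k2
    have g1' : |(g n : ℝ) - HL n| ≤ ε' / 4 * HL n := g1
    obtain ⟨g2, g3⟩ := abs_le.1 g1'
    have hHL0 : 0 ≤ HL n := le_trans (by positivity) hHLP
    have hεε : ε' * HL n ≤ ε * HL n := mul_le_mul_of_nonneg_right (min_le_left _ _) hHL0
    have hεp : 0 ≤ ε' * HL n := mul_nonneg hε'0.le hHL0
    rw [abs_le]
    constructor <;> linarith

end Pool.Agent.H560R3.GB
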